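import Mathlib

section

set_option autoImplicit false
set_option linter.unusedVariables false
set_option linter.unusedSectionVars false

/-!
# A twisted lattice over the n-gon

Vectors are pairs `(v, φ)` and covectors are pairs `(μ, ν)` of functions on `ZMod n`.
The incidence relation `Rel` between them defines a concept lattice `Lat n F`.
-/

namespace Pool.Agent.Lib.MP_5acbe8_al

open Order

/-- Pairs of functions on the vertices of the `n`-gon. -/
abbrev Vec (n : ℕ) (F : Type) : Type := (ZMod n → F) × (ZMod n → F)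

section Defs

variable {n : ℕ} {F : Type} [NeZero n] [Field F]

/-- The support of `φ` lies in the edge `{j, j+1}`. -/
def InEdge (φ : ZMod n → F) (j : ZMod n) : Prop := ∀ i, φ i ≠ 0 → i = j ∨ i = j + 1

/-- Change the sign of the coordinate `0`. -/
def neg0 (φ : ZMod n → F) : ZMod n → F := fun i => if i = 0 then - φ i else φ i

open Classical in
/-- Change the sign of the coordinate `0` if the support lies in `{0, 1}`. -/
noncomputable def twist (φ : ZMod n → F) : ZMod n → F := if InEdge φ 0 then neg0 φ else φ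

/-- The incidence relation. -/
def Rel (x y : Vec n F) : Prop :=
  (∀ j, y.1 j ≠ 0 → InEdge x.2 j) ∧
    (y.1 = 0 → y.2 ⬝ᵥ twist x.2 = 0) ∧ (y.1 ≠ 0 → y.1 ⬝ᵥ x.1 + y.2 ⬝ᵥ x.2 = 0)

/-- Sign function: the potential with cut at the edge `e`. -/
def sgn (e l : ZMod n) : F := if l ≠ 0 ∧ l.val ≤ e.val then -1 else 1

/-- Multiply by the potential with cut at the edge `e`. -/
def flip (e : ZMod n) (φ : ZMod n → F) : ZMod n → F := fun l => sgn e l * φ l

end Defs

/-- The twisted lattice. -/
abbrev Lat (n : ℕ) (F : Type) [NeZero n] [Field F] : Type :=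
  Concept (Vec n F) (Vec n F) Rel

section ZModFacts

variable {n : ℕ} [NeZero n]

theorem one_ne (hn : 3 ≤ n) : (1 : ZMod n) ≠ 0 := by
  intro h
  have := (ZMod.natCast_eq_zero_iff 1 n).1 (by exact_mod_cast h)
  exact absurd (Nat.le_of_dvd (by norm_num) this) (by omega)

theorem two_ne (hn : 3 ≤ n) : (2 : ZMod n) ≠ 0 := by
  intro h
  have := (ZMod.natCast_eq_zero_iff 2 n).1 (by exact_mod_cast h)
  exact absurd (Nat.le_of_dvd (by norm_num) this) (by omega)

theorem three_ne (hn : 4 ≤ n) : (3 : ZMod n) ≠ 0 := by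
  intro h
  have := (ZMod.natCast_eq_zero_iff 3 n).1 (by exact_mod_cast h)
  exact absurd (Nat.le_of_dvd (by norm_num) this) (by omega)

theorem val_succ (j : ZMod n) (h : j + 1 ≠ 0) : (j + 1).val = j.val + 1 := by
  have h1 : (j + 1).val = (j.val + 1) % n := by
    have : j + 1 = ((j.val + 1 : ℕ) : ZMod n) := by simp
    rw [this, ZMod.val_natCast]
  have hlt : j.val < n := ZMod.val_lt j
  rcases Nat.lt_or_ge (j.val + 1) n with h2 | h2
  · rw [h1, Nat.mod_eq_of_lt h2]
  · exfalso
    apply h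
    have h3 : j.val + 1 = n := by omega
    have : j + 1 = ((j.val + 1 : ℕ) : ZMod n) := by simp
    rw [this, h3]
    simp

theorem val_eq_of_succ_eq_zero (j : ZMod n) (h : j + 1 = 0) : j.val + 1 = n := by
  have h1 : (j + 1).val = (j.val + 1) % n := by
    have : j + 1 = ((j.val + 1 : ℕ) : ZMod n) := by simp
    rw [this, ZMod.val_natCast]
  rw [h, ZMod.val_zero] at h1
  have hlt : j.val < n := ZMod.val_lt j
  have := Nat.le_of_dvd (by omega) (Nat.dvd_of_mod_eq_zero h1.symm)
  omega

end ZModFacts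

section Basic

variable {n : ℕ} {F : Type} [NeZero n] [Field F]

theorem neg0_ne_iff (φ : ZMod n → F) (i : ZMod n) : neg0 φ i ≠ 0 ↔ φ i ≠ 0 := by
  unfold neg0
  split_ifs <;> simp

theorem neg0_neg0 (φ : ZMod n → F) : neg0 (neg0 φ) = φ := by
  funext i
  unfold neg0
  split_ifs <;> simp

theorem twist_ne_iff (φ : ZMod n → F) (i : ZMod n) : twist φ i ≠ 0 ↔ φ i ≠ 0 := by
  unfold twist
  split_ifs
  · exact neg0_ne_iff φ i
  · rfl

theorem inEdge_congr {φ ψ : ZMod n → F} (h : ∀ i, φ i ≠ 0 ↔ ψ i ≠ 0) (j : ZMod n) :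
    InEdge φ j ↔ InEdge ψ j := by
  unfold InEdge
  constructor
  · intro H i hi
    exact H i ((h i).2 hi)
  · intro H i hi
    exact H i ((h i).1 hi)

theorem inEdge_neg0 (φ : ZMod n → F) (j : ZMod n) : InEdge (neg0 φ) j ↔ InEdge φ j :=
  inEdge_congr (neg0_ne_iff φ) j

theorem inEdge_twist (φ : ZMod n → F) (j : ZMod n) : InEdge (twist φ) j ↔ InEdge φ j :=
  inEdge_congr (twist_ne_iff φ) j

theorem twist_twist (φ : ZMod n → F) : twist (twist φ) = φ := by
  by_cases h : InEdge φ 0
  · have h1 : twist φ = neg0 φ := by simp [twist, h]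
    rw [h1]
    have h2 : InEdge (neg0 φ) 0 := (inEdge_neg0 φ 0).2 h
    simp [twist, h2, neg0_neg0]
  · have h1 : twist φ = φ := by simp [twist, h]
    rw [h1, h1]

theorem twist_injective : Function.Injective (twist : (ZMod n → F) → (ZMod n → F)) :=
  Function.LeftInverse.injective twist_twist

theorem sgn_sq (e l : ZMod n) : (sgn e l : F) * sgn e l = 1 := by
  unfold sgn
  split_ifs <;> simp

theorem sgn_ne (e l : ZMod n) : (sgn e l : F) ≠ 0 := by
  unfold sgn
  split_ifs <;> simp

theorem flip_ne_iff (e : ZMod n) (φ : ZMod n → F) (i : ZMod n) : flip e φ i ≠ 0 ↔ φ i ≠ 0 := by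
  unfold flip
  simp [sgn_ne]

theorem inEdge_flip (e : ZMod n) (φ : ZMod n → F) (j : ZMod n) :
    InEdge (flip e φ) j ↔ InEdge φ j :=
  inEdge_congr (flip_ne_iff e φ) j

theorem flip_flip (e : ZMod n) (φ : ZMod n → F) : flip e (flip e φ) = φ := by
  funext l
  unfold flip
  rw [← mul_assoc, sgn_sq, one_mul]

theorem flip_add (e : ZMod n) (φ ψ : ZMod n → F) : flip e (φ + ψ) = flip e φ + flip e ψ := by
  funext l
  simp [flip, mul_add]

theorem flip_smul (e : ZMod n) (c : F) (φ : ZMod n → F) : flip e (c • φ) = c • flip e φ := by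
  funext l
  simp only [flip, Pi.smul_apply, smul_eq_mul]
  ring

theorem flip_zero (e : ZMod n) : flip e (0 : ZMod n → F) = 0 := by
  funext l
  simp [flip]

theorem dot_flip (e : ZMod n) (φ ψ : ZMod n → F) : φ ⬝ᵥ flip e ψ = flip e φ ⬝ᵥ ψ := by
  unfold dotProduct flip
  apply Finset.sum_congr rfl
  intro i _
  ring

theorem inEdge_zero (j : ZMod n) : InEdge (0 : ZMod n → F) j := by
  intro i hi
  exact absurd rfl hi

theorem InEdge.add {φ ψ : ZMod n → F} {j : ZMod n} (h1 : InEdge φ j) (h2 : InEdge ψ j) :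
    InEdge (φ + ψ) j := by
  intro i hi
  by_cases h : φ i = 0
  · apply h2
    intro h'
    apply hi
    simp [h, h']
  · exact h1 i h

theorem InEdge.smul {φ : ZMod n → F} {j : ZMod n} (c : F) (h1 : InEdge φ j) :
    InEdge (c • φ) j := by
  intro i hi
  apply h1
  intro h'
  apply hi
  simp [h']

theorem InEdge.neg {φ : ZMod n → F} {j : ZMod n} (h1 : InEdge φ j) :
    InEdge (-φ) j := by
  intro i hi
  apply h1
  intro h'
  apply hi
  simp [h']

theorem InEdge.sub {φ ψ : ZMod n → F} {j : ZMod n} (h1 : InEdge φ j) (h2 : InEdge ψ j) :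
    InEdge (φ - ψ) j := by
  rw [sub_eq_add_neg]
  exact h1.add h2.neg

/-- sign is constant on edges other than `{0,1}` and `{e,e+1}`. -/
theorem sgn_succ (hn : 3 ≤ n) {e j : ZMod n} (h0 : j ≠ 0) (he : j ≠ e) :
    (sgn e (j + 1) : F) = sgn e j := by
  have hjv : j.val ≠ e.val := fun h => he (ZMod.val_injective n h)
  by_cases h1 : j + 1 = 0
  · have h2 := val_eq_of_succ_eq_zero j h1
    have h3 : e.val < n := ZMod.val_lt e
    have h4 : ¬ (j ≠ 0 ∧ j.val ≤ e.val) := by
      rintro ⟨_, h⟩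
      omega
    simp only [sgn, h1, h4, if_false]
    simp
  · have h2 := val_succ j h1
    have h5 : ((j + 1 ≠ 0) ∧ (j + 1).val ≤ e.val) ↔ (j ≠ 0 ∧ j.val ≤ e.val) := by
      rw [h2]
      constructor
      · rintro ⟨_, h⟩
        exact ⟨h0, by omega⟩
      · rintro ⟨_, h⟩
        exact ⟨h1, by omega⟩
    unfold sgn
    exact if_congr h5 rfl rfl

theorem sgn_zero (e : ZMod n) : (sgn e 0 : F) = 1 := by
  simp [sgn]

theorem val_one_eq (hn : 3 ≤ n) : (1 : ZMod n).val = 1 := by
  have : Fact (1 < n) := ⟨by omega⟩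
  exact ZMod.val_one n

theorem sgn_one (hn : 3 ≤ n) {e : ZMod n} (he : e ≠ 0) : (sgn e 1 : F) = -1 := by
  have h1 : (1 : ZMod n).val = 1 := val_one_eq hn
  have h2 : e.val ≠ 0 := by
    intro h
    exact he ((ZMod.val_eq_zero e).1 h)
  have : (1 : ZMod n) ≠ 0 ∧ (1 : ZMod n).val ≤ e.val := ⟨one_ne hn, by omega⟩
  simp [sgn, this]

/-- Away from the cut edge, the twist is given by the potential. -/
theorem twist_eq_flip (hn : 3 ≤ n) {e j : ZMod n} (he : j ≠ e) {φ : ZMod n → F}
    (h : InEdge φ j) : ∃ c : F, c ≠ 0 ∧ twist φ = c • flip e φ := by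
  have h1n := one_ne (n := n) hn
  have h2n := two_ne (n := n) hn
  by_cases hj : j = 0
  · subst hj
    refine ⟨-1, by simp, ?_⟩
    have he0 : e ≠ 0 := fun h' => he h'.symm
    funext l
    simp only [twist, h, if_true, Pi.smul_apply, smul_eq_mul, flip, neg0]
    by_cases hl : φ l = 0
    · simp [hl]
    · rcases h l hl with h' | h'
      · subst h'
        simp [sgn_zero]
      · rw [zero_add] at h'
        subst h'
        simp [sgn_one hn he0, h1n]
  · have hs : (sgn e (j + 1) : F) = sgn e j := sgn_succ hn hj he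
    have hfl : flip e φ = (sgn e j : F) • φ := by
      funext l
      simp only [flip, Pi.smul_apply, smul_eq_mul]
      by_cases hl : φ l = 0
      · simp [hl]
      · rcases h l hl with h' | h'
        · rw [h']
        · rw [h', hs]
    by_cases h0 : InEdge φ 0
    · by_cases hj1 : j + 1 = 0
      · refine ⟨-(sgn e j), by simp [sgn_ne], ?_⟩
        rw [hfl, smul_smul]
        have : -(sgn e j : F) * sgn e j = -1 := by rw [neg_mul, sgn_sq]
        rw [this]
        funext l
        simp only [twist, h0, if_true, Pi.smul_apply, smul_eq_mul, neg0]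
        by_cases hl : φ l = 0
        · simp [hl]
        · have : l = 0 := by
            have e1 := h l hl
            have e2 := h0 l hl
            grind
          simp [this]
      · refine ⟨sgn e j, sgn_ne e j, ?_⟩
        rw [hfl, smul_smul, sgn_sq, one_smul]
        funext l
        simp only [twist, h0, if_true, neg0]
        by_cases hl : φ l = 0
        · simp [hl]
        · have : l ≠ 0 := by
            have e1 := h l hl
            have e2 := h0 l hl
            grind
          simp [this]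
    · refine ⟨sgn e j, sgn_ne e j, ?_⟩
      rw [hfl, smul_smul, sgn_sq, one_smul]
      simp [twist, h0]

/-- For every edge `j` there is a cut different from `j`. -/
theorem exists_cut (hn : 3 ≤ n) (j : ZMod n) : ∃ e : ZMod n, j ≠ e :=
  ⟨j + 1, by
    intro h
    have := one_ne (n := n) hn
    grind⟩

end Basic

end Pool.Agent.Lib.MP_5acbe8_al
end

section

section

set_option autoImplicit false
set_option linter.unusedVariables false
set_option linter.unusedSectionVars false

namespace Pool.Agent.Lib.MP_5acbe8_al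

open Order

variable {n : ℕ} {F : Type} [NeZero n] [Field F]

theorem mem_ext {X : Lat n F} {x : Vec n F} : x ∈ X.extent ↔ ∀ y ∈ X.intent, Rel x y := by
  conv_lhs => rw [← X.lowerPolar_intent]
  rfl

theorem mem_int {X : Lat n F} {y : Vec n F} : y ∈ X.intent ↔ ∀ x ∈ X.extent, Rel x y := by
  conv_lhs => rw [← X.upperPolar_extent]
  rfl

/-- Local linearity of the incidence relation. -/
theorem rel_lin (hn : 3 ≤ n) {x1 x2 y : Vec n F} {j : ZMod n} (h1 : InEdge x1.2 j)
    (h2 : InEdge x2.2 j) (c1 c2 : F) (r1 : Rel x1 y) (r2 : Rel x2 y) :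
    Rel (c1 • x1 + c2 • x2) y := by
  obtain ⟨r11, r12, r13⟩ := r1
  obtain ⟨r21, r22, r23⟩ := r2
  refine ⟨?_, ?_, ?_⟩
  · intro j' hj'
    exact ((r11 j' hj').smul c1).add ((r21 j' hj').smul c2)
  · intro hy
    obtain ⟨e, he⟩ := exists_cut hn j
    obtain ⟨a1, ha1, e1⟩ := twist_eq_flip (F := F) hn he h1
    obtain ⟨a2, ha2, e2⟩ := twist_eq_flip (F := F) hn he h2
    have h3 : InEdge (c1 • x1 + c2 • x2).2 j := (h1.smul c1).add (h2.smul c2)
    obtain ⟨a3, ha3, e3⟩ := twist_eq_flip (F := F) hn he h3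
    have f1 := r12 hy
    have f2 := r22 hy
    rw [e1, dotProduct_smul, smul_eq_mul] at f1
    rw [e2, dotProduct_smul, smul_eq_mul] at f2
    have g1 : y.2 ⬝ᵥ flip e x1.2 = 0 := (mul_eq_zero.1 f1).resolve_left ha1
    have g2 : y.2 ⬝ᵥ flip e x2.2 = 0 := (mul_eq_zero.1 f2).resolve_left ha2
    rw [e3, dotProduct_smul, smul_eq_mul]
    have : (c1 • x1 + c2 • x2).2 = c1 • x1.2 + c2 • x2.2 := rfl
    rw [this, flip_add, flip_smul, flip_smul, dotProduct_add, dotProduct_smul, dotProduct_smul,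
      g1, g2]
    simp
  · intro hy
    have f1 := r13 hy
    have f2 := r23 hy
    have e1 : (c1 • x1 + c2 • x2).2 = c1 • x1.2 + c2 • x2.2 := rfl
    have e2 : (c1 • x1 + c2 • x2).1 = c1 • x1.1 + c2 • x2.1 := rfl
    rw [e1, e2, dotProduct_add, dotProduct_add, dotProduct_smul, dotProduct_smul, dotProduct_smul,
      dotProduct_smul]
    simp only [smul_eq_mul]
    linear_combination c1 * f1 + c2 * f2

theorem ext_lin (hn : 3 ≤ n) (X : Lat n F) {x1 x2 : Vec n F} {j : ZMod n} (h1 : InEdge x1.2 j)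
    (h2 : InEdge x2.2 j) (c1 c2 : F) (r1 : x1 ∈ X.extent) (r2 : x2 ∈ X.extent) :
    c1 • x1 + c2 • x2 ∈ X.extent := by
  rw [mem_ext] at r1 r2 ⊢
  intro y hy
  exact rel_lin hn h1 h2 c1 c2 (r1 y hy) (r2 y hy)

theorem ext_add (hn : 3 ≤ n) (X : Lat n F) {x1 x2 : Vec n F} {j : ZMod n} (h1 : InEdge x1.2 j)
    (h2 : InEdge x2.2 j) (r1 : x1 ∈ X.extent) (r2 : x2 ∈ X.extent) :
    x1 + x2 ∈ X.extent := by
  have := ext_lin hn X h1 h2 1 1 r1 r2
  simpa using this

theorem ext_sub (hn : 3 ≤ n) (X : Lat n F) {x1 x2 : Vec n F} {j : ZMod n} (h1 : InEdge x1.2 j)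
    (h2 : InEdge x2.2 j) (r1 : x1 ∈ X.extent) (r2 : x2 ∈ X.extent) :
    x1 - x2 ∈ X.extent := by
  have := ext_lin hn X h1 h2 1 (-1) r1 r2
  simpa [sub_eq_add_neg] using this

theorem twist_zero : twist (0 : ZMod n → F) = 0 := by
  funext i
  by_contra h
  have := (twist_ne_iff (0 : ZMod n → F) i).1 h
  exact this rfl

theorem rel_zero_iff {v : ZMod n → F} {y : Vec n F} : Rel ((v, 0) : Vec n F) y ↔ y.1 ⬝ᵥ v = 0 := by
  constructor
  · rintro ⟨_, _, h⟩
    by_cases hy : y.1 = 0
    · simp [hy]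
    · simpa using h hy
  · intro h
    refine ⟨fun j _ => inEdge_zero j, ?_, ?_⟩
    · intro _
      simp [twist_zero]
    · intro _
      simpa using h

theorem zero_mem_ext (X : Lat n F) : (0 : Vec n F) ∈ X.extent := by
  rw [mem_ext]
  intro y _
  have : (0 : Vec n F) = ((0 : ZMod n → F), (0 : ZMod n → F)) := rfl
  rw [this, rel_zero_iff]
  simp

theorem ext_smul (hn : 3 ≤ n) (X : Lat n F) {x : Vec n F} (c : F) (r : x ∈ X.extent)
    {j : ZMod n} (h : InEdge x.2 j) : c • x ∈ X.extent := by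
  have := ext_lin hn X h h c 0 r r
  simpa using this

/-- The covector attached to a linear functional and a cut. -/
noncomputable def cov (e : ZMod n) (μ ν : ZMod n → F) : Vec n F :=
  open Classical in if μ = 0 then (0, flip e ν) else (μ, ν)

theorem cov_fst (e : ZMod n) (μ ν : ZMod n → F) : (cov e μ ν).1 = μ := by
  unfold cov
  split_ifs with h
  · exact h.symm
  · rfl

theorem rel_cov {e : ZMod n} {μ ν : ZMod n → F} {x : Vec n F} {c : F} (hc : c ≠ 0)
    (hx : twist x.2 = c • flip e x.2) (hμ : ∀ j, μ j ≠ 0 → InEdge x.2 j) :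
    Rel x (cov e μ ν) ↔ μ ⬝ᵥ x.1 + ν ⬝ᵥ x.2 = 0 := by
  unfold Rel
  rw [cov_fst]
  by_cases h : μ = 0
  · have h2 : (cov e μ ν).2 = flip e ν := by simp [cov, h]
    rw [h2, hx]
    have h3 : flip e ν ⬝ᵥ c • flip e x.2 = c * (ν ⬝ᵥ x.2) := by
      rw [dotProduct_smul, ← dot_flip, flip_flip, smul_eq_mul]
    rw [h3]
    constructor
    · rintro ⟨_, h4, _⟩
      have := (mul_eq_zero.1 (h4 h)).resolve_left hc
      simp [h, this]
    · intro h4
      refine ⟨hμ, ?_, fun h5 => absurd h h5⟩
      intro _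
      have : ν ⬝ᵥ x.2 = 0 := by simpa [h] using h4
      rw [this, mul_zero]
  · have h2 : (cov e μ ν).2 = ν := by simp [cov, h]
    rw [h2]
    constructor
    · rintro ⟨_, _, h4⟩
      exact h4 h
    · intro h4
      exact ⟨hμ, fun h5 => absurd h5 h, fun _ => h4⟩

theorem functional_rep (f : Vec n F →ₗ[F] F) :
    ∃ μ ν : ZMod n → F, ∀ x : Vec n F, f x = μ ⬝ᵥ x.1 + ν ⬝ᵥ x.2 := by
  refine ⟨fun j => f (Pi.single j 1, 0), fun i => f (0, Pi.single i 1), ?_⟩
  intro x
  have h1 : f x = f (x.1, 0) + f (0, x.2) := by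
    rw [← map_add]
    simp
  have h2 : f (x.1, 0) = (f.comp (LinearMap.inl F (ZMod n → F) (ZMod n → F))) x.1 := rfl
  have h3 : f (0, x.2) = (f.comp (LinearMap.inr F (ZMod n → F) (ZMod n → F))) x.2 := rfl
  rw [h1, h2, h3, LinearMap.pi_apply_eq_sum_univ, LinearMap.pi_apply_eq_sum_univ (f.comp _) x.2]
  unfold dotProduct
  congr 1
  · apply Finset.sum_congr rfl
    intro i _
    have : (fun j => if i = j then (1 : F) else 0) = Pi.single i 1 := by
      funext j
      simp [Pi.single_apply, eq_comm]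
    rw [this]
    simp [mul_comm]
  · apply Finset.sum_congr rfl
    intro i _
    have : (fun j => if i = j then (1 : F) else 0) = Pi.single i 1 := by
      funext j
      simp [Pi.single_apply, eq_comm]
    rw [this]
    simp [mul_comm]

/-- If `x` in the extent is not supported in the edge `j`, then all elements of the intent
vanish at `j`, and `(e_j, 0)` is in the extent. -/
theorem intent_eq_zero {X : Lat n F} {x y : Vec n F} (hx : x ∈ X.extent) (hy : y ∈ X.intent)
    {j : ZMod n} (h : ¬ InEdge x.2 j) : y.1 j = 0 := by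
  by_contra h'
  exact h ((mem_ext.1 hx y hy).1 j h')

/-- The ternary relation of collinearity. -/
def Rel3 (p q r : Vec n F) : Prop :=
  (∃ j, InEdge q.2 j ∧ InEdge r.2 j ∧ p = q + r) ∨
    ((¬ ∃ j, InEdge q.2 j ∧ InEdge r.2 j) ∧ twist p.2 = twist q.2 + twist r.2)

theorem rel_zero_fst {x : Vec n F} {ν : ZMod n → F} :
    Rel x ((0, ν) : Vec n F) ↔ ν ⬝ᵥ twist x.2 = 0 := by
  constructor
  · rintro ⟨_, h, _⟩
    exact h rfl
  · intro h
    exact ⟨fun j hj => absurd rfl hj, fun _ => h, fun h' => absurd rfl h'⟩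

theorem intent_fst_zero {Q : Lat n F} {q r : Vec n F} (hq : q ∈ Q.extent) (hr : r ∈ Q.extent)
    (h : ¬ ∃ j, InEdge q.2 j ∧ InEdge r.2 j) {y : Vec n F} (hy : y ∈ Q.intent) : y.1 = 0 := by
  funext j
  by_contra h'
  exact h ⟨j, (mem_ext.1 hq y hy).1 j h', (mem_ext.1 hr y hy).1 j h'⟩

theorem Rel3.mem (hn : 3 ≤ n) {p q r : Vec n F} (h : Rel3 p q r) {Q : Lat n F}
    (hq : q ∈ Q.extent) (hr : r ∈ Q.extent) : p ∈ Q.extent := by
  rcases h with ⟨j, h1, h2, rfl⟩ | ⟨h1, h2⟩
  · exact ext_add hn Q h1 h2 hq hr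
  · rw [mem_ext]
    intro y hy
    have hy0 : y.1 = 0 := intent_fst_zero hq hr h1 hy
    have hy' : y = (0, y.2) := by
      rw [← hy0]
    rw [hy', rel_zero_fst, h2, dotProduct_add]
    have a1 := mem_ext.1 hq y hy
    have a2 := mem_ext.1 hr y hy
    rw [hy', rel_zero_fst] at a1 a2
    rw [a1, a2, add_zero]

theorem Rel3.mem' (hn : 3 ≤ n) {p q r : Vec n F} (h : Rel3 p q r) {Q : Lat n F}
    (hp : p ∈ Q.extent) (hr : r ∈ Q.extent) : q ∈ Q.extent := by
  rcases h with ⟨j, h1, h2, rfl⟩ | ⟨h1, h2⟩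
  · have h3 : InEdge (q + r).2 j := h1.add h2
    have := ext_sub hn Q h3 h2 hp hr
    simpa using this
  · rw [mem_ext]
    intro y hy
    have h4 : ¬ ∃ j, InEdge p.2 j ∧ InEdge r.2 j := by
      rintro ⟨j, a1, a2⟩
      apply h1
      refine ⟨j, ?_, a2⟩
      have b1 : twist q.2 = twist p.2 - twist r.2 := by rw [h2]; simp
      rw [← inEdge_twist, b1]
      exact ((inEdge_twist _ _).2 a1).sub ((inEdge_twist _ _).2 a2)
    have hy0 : y.1 = 0 := intent_fst_zero hp hr h4 hy
    have hy' : y = (0, y.2) := by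
      rw [← hy0]
    have b1 : twist q.2 = twist p.2 - twist r.2 := by rw [h2]; simp
    rw [hy', rel_zero_fst, b1, dotProduct_sub]
    have a1 := mem_ext.1 hp y hy
    have a2 := mem_ext.1 hr y hy
    rw [hy', rel_zero_fst] at a1 a2
    rw [a1, a2, sub_zero]

theorem twist_smul (c : F) (φ : ZMod n → F) : twist (c • φ) = c • twist φ := by
  by_cases hc : c = 0
  · subst hc
    simp [twist_zero]
  · have h : InEdge (c • φ) 0 ↔ InEdge φ 0 := inEdge_congr (fun i => by simp [hc]) 0
    unfold twist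
    by_cases h0 : InEdge φ 0
    · rw [if_pos (h.2 h0), if_pos h0]
      funext i
      simp only [neg0, Pi.smul_apply, smul_eq_mul]
      split_ifs <;> ring
    · rw [if_neg (fun h' => h0 (h.1 h')), if_neg h0]

/-- The twisted second components of an extent are closed under linear combinations. -/
theorem twist_lin (hn : 3 ≤ n) (X : Lat n F) {x1 x2 : Vec n F} (h1 : x1 ∈ X.extent)
    (h2 : x2 ∈ X.extent) (c1 c2 : F) :
    ∃ x ∈ X.extent, twist x.2 = c1 • twist x1.2 + c2 • twist x2.2 := by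
  by_cases h : ∃ j, InEdge x1.2 j ∧ InEdge x2.2 j
  · obtain ⟨j, j1, j2⟩ := h
    obtain ⟨e, he⟩ := exists_cut hn j
    obtain ⟨a1, ha1, e1⟩ := twist_eq_flip (F := F) hn he j1
    obtain ⟨a2, ha2, e2⟩ := twist_eq_flip (F := F) hn he j2
    have h3 : InEdge ((c1 * a1) • x1 + (c2 * a2) • x2).2 j := (j1.smul _).add (j2.smul _)
    obtain ⟨a3, ha3, e3⟩ := twist_eq_flip (F := F) hn he h3
    have hm : (c1 * a1) • x1 + (c2 * a2) • x2 ∈ X.extent := ext_lin hn X j1 j2 _ _ h1 h2
    refine ⟨a3⁻¹ • ((c1 * a1) • x1 + (c2 * a2) • x2), ext_smul hn X _ hm h3, ?_⟩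
    have h5 : (a3⁻¹ • ((c1 * a1) • x1 + (c2 * a2) • x2)).2
        = a3⁻¹ • ((c1 * a1) • x1 + (c2 * a2) • x2).2 := rfl
    rw [h5, twist_smul, e3, smul_smul, inv_mul_cancel₀ ha3, one_smul]
    have h6 : ((c1 * a1) • x1 + (c2 * a2) • x2).2 = (c1 * a1) • x1.2 + (c2 * a2) • x2.2 := rfl
    rw [h6, flip_add, flip_smul, flip_smul, e1, e2, smul_smul, smul_smul]
  · refine ⟨(0, twist (c1 • twist x1.2 + c2 • twist x2.2)), ?_, by simp [twist_twist]⟩
    rw [mem_ext]
    intro y hy
    have hy0 : y.1 = 0 := intent_fst_zero h1 h2 h hy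
    have hy' : y = (0, y.2) := by
      rw [← hy0]
    rw [hy', rel_zero_fst]
    have a1 := mem_ext.1 h1 y hy
    have a2 := mem_ext.1 h2 y hy
    rw [hy', rel_zero_fst] at a1 a2
    simp only [twist_twist]
    rw [dotProduct_add, dotProduct_smul, dotProduct_smul, a1, a2]
    simp

/-- The subspace attached to an extent contained in one edge chart. -/
def extSub (hn : 3 ≤ n) (X : Lat n F) (j : ZMod n) (h : ∀ x ∈ X.extent, InEdge x.2 j) :
    Submodule F (Vec n F) where
  carrier := X.extent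
  add_mem' := fun {a b} ha hb => ext_add hn X (h a ha) (h b hb) ha hb
  zero_mem' := zero_mem_ext X
  smul_mem' := fun c x hx => ext_smul hn X c hx (h x hx)

theorem single_mem_ext {X : Lat n F} {x : Vec n F} (hx : x ∈ X.extent) {j : ZMod n}
    (h : ¬ InEdge x.2 j) : ((Pi.single j 1, 0) : Vec n F) ∈ X.extent := by
  rw [mem_ext]
  intro y hy
  rw [rel_zero_iff]
  simp [intent_eq_zero hx hy h]

theorem line_case1 (hn : 3 ≤ n) (X Y : Lat n F) (p : Vec n F) (hp : p ∈ (X ⊔ Y).extent)
    (j : ZMod n) (hX : ∀ x ∈ X.extent, InEdge x.2 j) (hY : ∀ x ∈ Y.extent, InEdge x.2 j) :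
    ∃ q ∈ X.extent, ∃ r ∈ Y.extent, Rel3 p q r := by
  have hp' : ∀ y, y ∈ X.intent → y ∈ Y.intent → Rel p y := by
    intro y h1 h2
    exact mem_ext.1 hp y ⟨h1, h2⟩
  by_cases hS : p ∈ extSub hn X j hX ⊔ extSub hn Y j hY
  · obtain ⟨q, hq, r, hr, h⟩ := Submodule.mem_sup.1 hS
    exact ⟨q, hq, r, hr, Or.inl ⟨j, hX q hq, hY r hr, h.symm⟩⟩
  · exfalso
    obtain ⟨f, hf1, hf2⟩ := Submodule.exists_le_ker_of_notMem hS
    obtain ⟨μ, ν, hf⟩ := functional_rep f
    obtain ⟨e, he⟩ := exists_cut hn j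
    have key : ∀ Z : Lat n F, (∀ x ∈ Z.extent, InEdge x.2 j) →
        (∀ x ∈ Z.extent, f x = 0) → cov e μ ν ∈ Z.intent := by
      intro Z hZ hfZ
      rw [mem_int]
      intro x hx
      obtain ⟨c, hc, hc'⟩ := twist_eq_flip (F := F) hn he (hZ x hx)
      rw [rel_cov hc hc', ← hf]
      · exact hfZ x hx
      · intro j' hj'
        by_contra h'
        have h1 := single_mem_ext hx h'
        have h2 := hfZ _ h1
        rw [hf] at h2
        simp at h2
        exact hj' h2
    have hXi : cov e μ ν ∈ X.intent := by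
      apply key X hX
      intro x hx
      have : x ∈ extSub hn X j hX ⊔ extSub hn Y j hY := Submodule.mem_sup_left hx
      exact hf2 this
    have hYi : cov e μ ν ∈ Y.intent := by
      apply key Y hY
      intro x hx
      have : x ∈ extSub hn X j hX ⊔ extSub hn Y j hY := Submodule.mem_sup_right hx
      exact hf2 this
    have hpj : InEdge p.2 j := by
      intro l hl
      by_contra hlj
      have aux : ∀ Z : Lat n F, (∀ x ∈ Z.extent, InEdge x.2 j) →
          ((0, Pi.single l 1) : Vec n F) ∈ Z.intent := by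
        intro Z hZ
        rw [mem_int]
        intro x hx
        rw [rel_zero_fst]
        by_contra h'
        have h2 : twist x.2 l ≠ 0 := by
          intro h3
          apply h'
          simp [h3]
        exact hlj (hZ x hx l ((twist_ne_iff _ _).1 h2))
      have h3 := hp' _ (aux X hX) (aux Y hY)
      rw [rel_zero_fst] at h3
      simp at h3
      exact (twist_ne_iff _ _).2 hl h3
    have h4 := hp' _ hXi hYi
    obtain ⟨c, hc, hc'⟩ := twist_eq_flip (F := F) hn he hpj
    rw [rel_cov hc hc' (fun j' hj' => h4.1 j' (by rw [cov_fst]; exact hj')), ← hf] at h4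
    exact hf1 h4

theorem line (hn : 3 ≤ n) (X Y : Lat n F) (p : Vec n F) (hp : p ∈ (X ⊔ Y).extent) :
    ∃ q ∈ X.extent, ∃ r ∈ Y.extent, Rel3 p q r := by
  by_cases hcase : ∃ j, (∀ x ∈ X.extent, InEdge x.2 j) ∧ (∀ x ∈ Y.extent, InEdge x.2 j)
  · obtain ⟨j, h1, h2⟩ := hcase
    exact line_case1 hn X Y p hp j h1 h2
  have hp' : ∀ y, y ∈ X.intent → y ∈ Y.intent → Rel p y := by
    intro y h1 h2
    exact mem_ext.1 hp y ⟨h1, h2⟩
  -- every single vector lies in one of the two
  have hsingle : ∀ j, ((Pi.single j 1, 0) : Vec n F) ∈ X.extent ∨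
      ((Pi.single j 1, 0) : Vec n F) ∈ Y.extent := by
    intro j
    by_cases h1 : ∀ x ∈ X.extent, InEdge x.2 j
    · by_cases h2 : ∀ x ∈ Y.extent, InEdge x.2 j
      · exact absurd ⟨j, h1, h2⟩ hcase
      · push Not at h2
        obtain ⟨x, hx, hx'⟩ := h2
        exact Or.inr (single_mem_ext hx hx')
    · push Not at h1
      obtain ⟨x, hx, hx'⟩ := h1
      exact Or.inl (single_mem_ext hx hx')
  -- splitting of the first component
  have hsplit : ∀ v : ZMod n → F, ∃ v1 v2 : ZMod n → F, v = v1 + v2 ∧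
      ((v1, 0) : Vec n F) ∈ X.extent ∧ ((v2, 0) : Vec n F) ∈ Y.extent := by
    intro v
    classical
    refine ⟨fun j => if ((Pi.single j 1, 0) : Vec n F) ∈ X.extent then v j else 0,
      fun j => if ((Pi.single j 1, 0) : Vec n F) ∈ X.extent then 0 else v j, ?_, ?_, ?_⟩
    · funext j
      simp only [Pi.add_apply]
      split_ifs <;> simp
    · rw [mem_ext]
      intro y hy
      rw [rel_zero_iff]
      unfold dotProduct
      apply Finset.sum_eq_zero
      intro j _
      beta_reduce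
      split_ifs with h
      · have := mem_ext.1 h y hy
        rw [rel_zero_iff] at this
        simp at this
        simp [this]
      · simp
    · rw [mem_ext]
      intro y hy
      rw [rel_zero_iff]
      unfold dotProduct
      apply Finset.sum_eq_zero
      intro j _
      beta_reduce
      split_ifs with h
      · simp
      · have := mem_ext.1 ((hsingle j).resolve_left h) y hy
        rw [rel_zero_iff] at this
        simp at this
        simp [this]
  -- the sum of the two twisted subspaces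
  have hsum : ∃ q ∈ X.extent, ∃ r ∈ Y.extent, twist p.2 = twist q.2 + twist r.2 := by
    let SX : Submodule F (ZMod n → F) :=
      { carrier := {φ | ∃ x ∈ X.extent, twist x.2 = φ}
        add_mem' := by
          rintro a b ⟨x1, h1, rfl⟩ ⟨x2, h2, rfl⟩
          obtain ⟨x, hx, hx'⟩ := twist_lin hn X h1 h2 1 1
          exact ⟨x, hx, by simpa using hx'⟩
        zero_mem' := ⟨0, zero_mem_ext X, twist_zero⟩
        smul_mem' := by
          rintro c a ⟨x1, h1, rfl⟩
          obtain ⟨x, hx, hx'⟩ := twist_lin hn X h1 h1 c 0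
          exact ⟨x, hx, by simpa using hx'⟩ }
    let SY : Submodule F (ZMod n → F) :=
      { carrier := {φ | ∃ x ∈ Y.extent, twist x.2 = φ}
        add_mem' := by
          rintro a b ⟨x1, h1, rfl⟩ ⟨x2, h2, rfl⟩
          obtain ⟨x, hx, hx'⟩ := twist_lin hn Y h1 h2 1 1
          exact ⟨x, hx, by simpa using hx'⟩
        zero_mem' := ⟨0, zero_mem_ext Y, twist_zero⟩
        smul_mem' := by
          rintro c a ⟨x1, h1, rfl⟩
          obtain ⟨x, hx, hx'⟩ := twist_lin hn Y h1 h1 c 0
          exact ⟨x, hx, by simpa using hx'⟩ }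
    by_cases hS : twist p.2 ∈ SX ⊔ SY
    · obtain ⟨q, ⟨x, hx, hx'⟩, r, ⟨y, hy, hy'⟩, h⟩ := Submodule.mem_sup.1 hS
      exact ⟨x, hx, y, hy, by rw [hx', hy', h]⟩
    · exfalso
      obtain ⟨f, hf1, hf2⟩ := Submodule.exists_le_ker_of_notMem hS
      have hf : ∀ φ, f φ = (fun i => f (Pi.single i 1)) ⬝ᵥ φ := by
        intro φ
        rw [LinearMap.pi_apply_eq_sum_univ]
        unfold dotProduct
        apply Finset.sum_congr rfl
        intro i _
        have : (fun j => if i = j then (1 : F) else 0) = Pi.single i 1 := by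
          funext j
          simp [Pi.single_apply, eq_comm]
        rw [this]
        simp [mul_comm]
      have hXi : ((0, fun i => f (Pi.single i 1)) : Vec n F) ∈ X.intent := by
        rw [mem_int]
        intro x hx
        rw [rel_zero_fst, ← hf]
        have : twist x.2 ∈ SX ⊔ SY := Submodule.mem_sup_left ⟨x, hx, rfl⟩
        exact hf2 this
      have hYi : ((0, fun i => f (Pi.single i 1)) : Vec n F) ∈ Y.intent := by
        rw [mem_int]
        intro x hx
        rw [rel_zero_fst, ← hf]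
        have : twist x.2 ∈ SX ⊔ SY := Submodule.mem_sup_right ⟨x, hx, rfl⟩
        exact hf2 this
      have h4 := hp' _ hXi hYi
      rw [rel_zero_fst, ← hf] at h4
      exact hf1 h4
  obtain ⟨q, hq, r, hr, hqr⟩ := hsum
  by_cases hj : ∃ j, InEdge q.2 j ∧ InEdge r.2 j
  · obtain ⟨j, hj1, hj2⟩ := hj
    obtain ⟨e, he⟩ := exists_cut hn j
    have hj3 : InEdge p.2 j := by
      rw [← inEdge_twist, hqr]
      exact ((inEdge_twist _ _).2 hj1).add ((inEdge_twist _ _).2 hj2)
    obtain ⟨a1, ha1, e1⟩ := twist_eq_flip (F := F) hn he hj1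
    obtain ⟨a2, ha2, e2⟩ := twist_eq_flip (F := F) hn he hj2
    obtain ⟨a3, ha3, e3⟩ := twist_eq_flip (F := F) hn he hj3
    have hp2 : p.2 = (a3⁻¹ * a1) • q.2 + (a3⁻¹ * a2) • r.2 := by
      have h1 : flip e (a3 • p.2) = flip e (a1 • q.2 + a2 • r.2) := by
        rw [flip_smul, flip_add, flip_smul, flip_smul, ← e1, ← e2, ← e3, hqr]
      have h2 : a3 • p.2 = a1 • q.2 + a2 • r.2 := by
        have := congrArg (flip e) h1
        rwa [flip_flip, flip_flip] at this
      have h3 : p.2 = a3⁻¹ • (a3 • p.2) := by rw [smul_smul, inv_mul_cancel₀ ha3, one_smul]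
      rw [h3, h2, smul_add, smul_smul, smul_smul]
    obtain ⟨v1, v2, hv, hv1, hv2⟩ :=
      hsplit (p.1 - ((a3⁻¹ * a1) • q.1 + (a3⁻¹ * a2) • r.1))
    refine ⟨(a3⁻¹ * a1) • q + (v1, 0), ?_, (a3⁻¹ * a2) • r + (v2, 0), ?_, ?_⟩
    · exact ext_add hn X (hj1.smul _) (inEdge_zero j) (ext_smul hn X _ hq hj1) hv1
    · exact ext_add hn Y (hj2.smul _) (inEdge_zero j) (ext_smul hn Y _ hr hj2) hv2
    · left
      refine ⟨j, ?_, ?_, ?_⟩
      · exact (hj1.smul _).add (inEdge_zero j)
      · exact (hj2.smul _).add (inEdge_zero j)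
      · apply Prod.ext
        · simp only [Prod.fst_add, Prod.smul_fst]
          have : p.1 = (a3⁻¹ * a1) • q.1 + (a3⁻¹ * a2) • r.1 + (v1 + v2) := by
            rw [← hv]
            abel
          rw [this]
          abel
        · simp only [Prod.snd_add, Prod.smul_snd, add_zero]
          exact hp2
  · exact ⟨q, hq, r, hr, Or.inr ⟨hj, hqr⟩⟩

/-- The twisted lattice is modular. -/
theorem modular (hn : 3 ≤ n) : IsModularLattice (Lat n F) where
  sup_inf_le_assoc_of_le := by
    intro X Y Z hXZ p hp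
    obtain ⟨hp1, hp2⟩ := hp
    obtain ⟨q, hq, r, hr, h⟩ := line hn Y X p (by rw [sup_comm]; exact hp1)
    have hq' : q ∈ Z.extent := h.mem' hn hp2 (hXZ hr)
    apply h.mem hn (Q := X ⊔ Y ⊓ Z)
    · exact (le_sup_right : Y ⊓ Z ≤ X ⊔ Y ⊓ Z) ⟨hq, hq'⟩
    · exact (le_sup_left : X ≤ X ⊔ Y ⊓ Z) hr

end Pool.Agent.Lib.MP_5acbe8_al
end

section

set_option autoImplicit false
set_option linter.unusedVariables false
set_option linter.unusedSectionVars false

namespace Pool.Agent.Lib.MP_5acbe8_al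

open Order

variable {n : ℕ} {F : Type} [NeZero n] [Field F]

theorem InEdge.of_eq {φ ψ : ZMod n → F} {j : ZMod n} (h : InEdge φ j) (e : φ = ψ) : InEdge ψ j :=
  e ▸ h

/-- An extent containing two vectors without common edge contains all vectors with vanishing
second component. -/
theorem zero_snd_mem {Q : Lat n F} {q r x : Vec n F} (hq : q ∈ Q.extent) (hr : r ∈ Q.extent)
    (h : ¬ ∃ j, InEdge q.2 j ∧ InEdge r.2 j) (hx : x.2 = 0) : x ∈ Q.extent := by
  rw [mem_ext]
  intro y hy
  have hy0 : y.1 = 0 := intent_fst_zero hq hr h hy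
  have : x = (x.1, 0) := by rw [← hx]
  rw [this, rel_zero_iff, hy0]
  simp

theorem mem_ofObject {x : Vec n F} {Q : Lat n F} :
    Concept.ofObject Rel x ≤ Q ↔ x ∈ Q.extent := by
  simp

theorem self_mem_ofObject (x : Vec n F) :
    x ∈ (Concept.ofObject (Rel : Vec n F → Vec n F → Prop) x).extent :=
  mem_ofObject.1 le_rfl

/-- Splitting of a vector with vanishing second component. -/
theorem line_zero (hn : 3 ≤ n) (X Y : Lat n F) (q : Vec n F) (hq0 : q.2 = 0)
    (hq : q ∈ (X ⊔ Y).extent) :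
    ∃ x ∈ X.extent, ∃ y ∈ Y.extent, q = x - y ∧ ∃ j, InEdge x.2 j ∧ InEdge y.2 j := by
  obtain ⟨x, hx, y, hy, h⟩ := line hn X Y q hq
  rcases h with ⟨j, h1, h2, h3⟩ | ⟨h1, h2⟩
  · refine ⟨x, hx, (-1 : F) • y, ext_smul hn Y _ hy h2, ?_, j, h1, h2.smul _⟩
    rw [h3]
    simp
  · refine ⟨q, ?_, 0, zero_mem_ext Y, by simp, 0, ?_, inEdge_zero 0⟩
    · apply zero_snd_mem hx hx _ hq0
      rintro ⟨j, j1, _⟩
      apply h1
      refine ⟨j, j1, ?_⟩
      have : twist y.2 = - twist x.2 := by
        rw [hq0, twist_zero] at h2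
        exact (neg_eq_of_add_eq_zero_right h2.symm).symm
      rw [← inEdge_twist, this]
      exact ((inEdge_twist _ _).2 j1).neg
    · rw [hq0]
      exact inEdge_zero 0

theorem line_last (hn : 3 ≤ n) (z Y : Lat n F) (hz0 : ∀ x ∈ z.extent, x.2 = 0) (p : Vec n F)
    (hp : p ∈ (z ⊔ Y).extent) :
    p ∈ Y.extent ∨ ∃ q ∈ z.extent, ∃ y ∈ Y.extent, q = p - y ∧ ∃ j, InEdge p.2 j ∧ InEdge y.2 j := by
  obtain ⟨q, hq, y, hy, h⟩ := line hn z Y p hp
  have hq0 := hz0 q hq
  rcases h with ⟨j, h1, h2, h3⟩ | ⟨h1, h2⟩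
  · right
    refine ⟨q, hq, y, hy, by rw [h3]; simp, j, ?_, h2⟩
    rw [h3]
    exact h1.add h2
  · left
    rw [mem_ext]
    intro t ht
    have ht0 : t.1 = 0 := by
      apply intent_fst_zero hy hy _ ht
      rintro ⟨j, j1, _⟩
      apply h1
      refine ⟨j, ?_, j1⟩
      rw [hq0]
      exact inEdge_zero j
    have ht' : t = (0, t.2) := by rw [← ht0]
    have := mem_ext.1 hy t ht
    rw [ht', rel_zero_fst] at this ⊢
    rw [h2, hq0, twist_zero, zero_add]
    exact this

theorem typeZero (hn : 3 ≤ n) (m : ℕ) (hm : 2 ≤ m) (hmn : m < n) (z w : Lat n F)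
    (a b : ℕ → Lat n F) (hz0 : ∀ x ∈ z.extent, x.2 = 0)
    (hz : ∀ i, 1 ≤ i → i < m → z ≤ a i ⊔ b i)
    (hw : ∀ i, 1 ≤ i → i < m → (a i ⊔ a (i + 1)) ⊓ (b i ⊔ b (i + 1)) ≤ w) :
    a m ⊓ (z ⊔ b m) ≤ a 1 ⊔ (w ⊓ (b 1 ⊔ b m)) := by
  intro p hp
  obtain ⟨hpa, hpb⟩ := hp
  rcases line_last hn z (b m) hz0 p hpb with hpb' | ⟨q, hq, bm, hbm, hqm, jm, hjm1, hjm2⟩
  · -- p in a_m and b_m
    have h1 : p ∈ w.extent := by
      apply hw (m - 1) (by omega) (by omega)
      have e : m - 1 + 1 = m := by omega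
      rw [e]
      exact ⟨(le_sup_right : a m ≤ a (m - 1) ⊔ a m) hpa, (le_sup_right : b m ≤ b (m - 1) ⊔ b m) hpb'⟩
    have h2 : p ∈ (b 1 ⊔ b m).extent := (le_sup_right : b m ≤ b 1 ⊔ b m) hpb'
    exact (le_sup_right : w ⊓ (b 1 ⊔ b m) ≤ a 1 ⊔ (w ⊓ (b 1 ⊔ b m))) ⟨h1, h2⟩
  have hq0 : q.2 = 0 := hz0 q hq
  -- choose the vectors
  have hex : ∀ i, ∃ x y : Vec n F, (1 ≤ i → i ≤ m → x ∈ (a i).extent ∧ y ∈ (b i).extent ∧
      q = x - y ∧ ∃ j, InEdge x.2 j ∧ InEdge y.2 j) ∧ (i = m → x = p) := by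
    intro i
    by_cases him : i = m
    · subst him
      exact ⟨p, bm, fun _ _ => ⟨hpa, hbm, hqm, jm, hjm1, hjm2⟩, fun _ => rfl⟩
    · by_cases hi : 1 ≤ i ∧ i < m
      · obtain ⟨x, hx, y, hy, h1, h2⟩ := line_zero hn (a i) (b i) q hq0 (hz i hi.1 hi.2 hq)
        exact ⟨x, y, fun _ _ => ⟨hx, hy, h1, h2⟩, fun h => absurd h him⟩
      · refine ⟨0, 0, fun h1 h2 => absurd ⟨h1, lt_of_le_of_ne h2 him⟩ hi, fun h => absurd h him⟩
  choose α β hαβ using hex
  have hα : ∀ i, 1 ≤ i → i ≤ m → α i ∈ (a i).extent := fun i h1 h2 => ((hαβ i).1 h1 h2).1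
  have hβ : ∀ i, 1 ≤ i → i ≤ m → β i ∈ (b i).extent := fun i h1 h2 => ((hαβ i).1 h1 h2).2.1
  have hqe : ∀ i, 1 ≤ i → i ≤ m → q = α i - β i := fun i h1 h2 => ((hαβ i).1 h1 h2).2.2.1
  have hed : ∀ i, 1 ≤ i → i ≤ m → ∃ j, InEdge (α i).2 j ∧ InEdge (β i).2 j :=
    fun i h1 h2 => ((hαβ i).1 h1 h2).2.2.2
  have hαm : α m = p := (hαβ m).2 rfl
  have hsnd : ∀ i, 1 ≤ i → i ≤ m → (α i).2 = (β i).2 := by
    intro i h1 h2
    have h3 := congrArg Prod.snd (hqe i h1 h2)
    rw [hq0, Prod.snd_sub] at h3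
    exact (sub_eq_zero.1 h3.symm)
  have hqin : ∀ j, InEdge q.2 j := fun j => by rw [hq0]; exact inEdge_zero j
  have hαq : ∀ i, 1 ≤ i → i ≤ m → α i = q + β i := by
    intro i h1 h2
    rw [hqe i h1 h2]
    simp
  have hβq : ∀ i, 1 ≤ i → i ≤ m → β i = α i - q := by
    intro i h1 h2
    rw [hqe i h1 h2]
    simp
  -- differences
  have hgood : ∀ i, 1 ≤ i → i < m → (∃ j, InEdge (α i).2 j ∧ InEdge (α (i + 1)).2 j) →
      α i - α (i + 1) ∈ w.extent := by
    intro i h1 h2 ⟨j, j1, j2⟩
    apply hw i h1 h2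
    have k1 : α i - α (i + 1) ∈ (a i ⊔ a (i + 1)).extent := by
      apply ext_sub hn _ j1 j2
      · exact (le_sup_left : a i ≤ a i ⊔ a (i + 1)) (hα i h1 h2.le)
      · exact (le_sup_right : a (i + 1) ≤ a i ⊔ a (i + 1)) (hα (i + 1) (by omega) (by omega))
    have k2 : α i - α (i + 1) ∈ (b i ⊔ b (i + 1)).extent := by
      have : α i - α (i + 1) = β i - β (i + 1) := by
        rw [hαq i h1 h2.le, hαq (i + 1) (by omega) (by omega)]
        simp
      rw [this]
      apply ext_sub hn _ (j1.of_eq (hsnd i h1 h2.le)) (j2.of_eq (hsnd (i + 1) (by omega) (by omega)))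
      · exact (le_sup_left : b i ≤ b i ⊔ b (i + 1)) (hβ i h1 h2.le)
      · exact (le_sup_right : b (i + 1) ≤ b i ⊔ b (i + 1)) (hβ (i + 1) (by omega) (by omega))
    exact ⟨k1, k2⟩
  have hbad : ∀ i, 1 ≤ i → i < m → (¬ ∃ j, InEdge (α i).2 j ∧ InEdge (α (i + 1)).2 j) →
      β i ∈ w.extent ∧ β (i + 1) ∈ w.extent := by
    intro i h1 h2 h3
    have a1 : α i ∈ (a i ⊔ a (i + 1)).extent :=
      (le_sup_left : a i ≤ a i ⊔ a (i + 1)) (hα i h1 h2.le)
    have a2 : α (i + 1) ∈ (a i ⊔ a (i + 1)).extent :=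
      (le_sup_right : a (i + 1) ≤ a i ⊔ a (i + 1)) (hα (i + 1) (by omega) (by omega))
    have b1 : β i ∈ (b i ⊔ b (i + 1)).extent :=
      (le_sup_left : b i ≤ b i ⊔ b (i + 1)) (hβ i h1 h2.le)
    have b2 : β (i + 1) ∈ (b i ⊔ b (i + 1)).extent :=
      (le_sup_right : b (i + 1) ≤ b i ⊔ b (i + 1)) (hβ (i + 1) (by omega) (by omega))
    have hqa : q ∈ (a i ⊔ a (i + 1)).extent := zero_snd_mem a1 a2 h3 hq0
    obtain ⟨j, j1, _⟩ := hed i h1 h2.le
    obtain ⟨j', j1', _⟩ := hed (i + 1) (by omega) (by omega)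
    constructor
    · apply hw i h1 h2
      refine ⟨?_, b1⟩
      rw [hβq i h1 h2.le]
      exact ext_sub hn _ j1 (hqin j) a1 hqa
    · apply hw i h1 h2
      refine ⟨?_, b2⟩
      rw [hβq (i + 1) (by omega) (by omega)]
      exact ext_sub hn _ j1' (hqin j') a2 hqa
  have hRa : ∀ x, x ∈ (a 1).extent → x ∈ (a 1 ⊔ (w ⊓ (b 1 ⊔ b m))).extent :=
    fun x hx => (le_sup_left : a 1 ≤ a 1 ⊔ (w ⊓ (b 1 ⊔ b m))) hx
  have hRw : ∀ x, x ∈ w.extent → x ∈ (b 1 ⊔ b m).extent →
      x ∈ (a 1 ⊔ (w ⊓ (b 1 ⊔ b m))).extent :=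
    fun x hx hx' => (le_sup_right : w ⊓ (b 1 ⊔ b m) ≤ a 1 ⊔ (w ⊓ (b 1 ⊔ b m))) ⟨hx, hx'⟩
  have hβ1 : β 1 ∈ (b 1 ⊔ b m).extent :=
    (le_sup_left : b 1 ≤ b 1 ⊔ b m) (hβ 1 le_rfl (by omega))
  have hβm : β m ∈ (b 1 ⊔ b m).extent :=
    (le_sup_right : b m ≤ b 1 ⊔ b m) (hβ m (by omega) le_rfl)
  by_cases hall : ∀ i, 1 ≤ i → i < m → ∃ j, InEdge (α i).2 j ∧ InEdge (α (i + 1)).2 j
  · by_cases hcl : ∃ j, InEdge (α 1).2 j ∧ InEdge (α m).2 j
    · -- closed walk
      obtain ⟨j0, j01, j02⟩ := hcl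
      have hJ : ∃ J : ℕ → ZMod n, ∀ i, 1 ≤ i → i < m →
          InEdge (α i).2 (J i) ∧ InEdge (α (i + 1)).2 (J i) := by
        have : ∀ i, ∃ j, 1 ≤ i → i < m → InEdge (α i).2 j ∧ InEdge (α (i + 1)).2 j := by
          intro i
          by_cases hi : 1 ≤ i ∧ i < m
          · obtain ⟨j, hj⟩ := hall i hi.1 hi.2
            exact ⟨j, fun _ _ => hj⟩
          · exact ⟨0, fun h1 h2 => absurd ⟨h1, h2⟩ hi⟩
        choose J hJ using this
        exact ⟨J, hJ⟩
      obtain ⟨J, hJ⟩ := hJ
      obtain ⟨e, he⟩ : ∃ e : ZMod n, e ∉ insert j0 ((Finset.Ico 1 m).image J) := by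
        by_contra hcon
        push Not at hcon
        have h1 : (Finset.univ : Finset (ZMod n)) ⊆ insert j0 ((Finset.Ico 1 m).image J) :=
          fun x _ => hcon x
        have h2 := Finset.card_le_card h1
        have h3 : (insert j0 ((Finset.Ico 1 m).image J)).card ≤ (m - 1) + 1 := by
          refine (Finset.card_insert_le _ _).trans ?_
          have := Finset.card_image_le (s := Finset.Ico 1 m) (f := J)
          simp at this
          omega
        rw [Finset.card_univ, ZMod.card] at h2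
        omega
      simp only [Finset.mem_insert, Finset.mem_image, Finset.mem_Ico, not_or, not_exists,
        not_and] at he
      have he0 : j0 ≠ e := fun h => he.1 h.symm
      have heJ : ∀ i, 1 ≤ i → i < m → J i ≠ e := fun i h1 h2 => he.2 i ⟨h1, h2⟩
      have hγw : α 1 - α m ∈ w.extent := by
        rw [mem_ext]
        intro y hy
        have hgi : ∀ i, 1 ≤ i → i < m → Rel (α i - α (i + 1)) y := by
          intro i h1 h2
          exact mem_ext.1 (hgood i h1 h2 (hall i h1 h2)) y hy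
        refine ⟨?_, ?_, ?_⟩
        · intro j hj
          have : ∀ i, 1 ≤ i → i ≤ m → InEdge (α 1 - α i).2 j := by
            intro i h1
            induction i, h1 using Nat.le_induction with
            | base =>
              intro _
              simp only [sub_self, Prod.snd_zero]
              exact inEdge_zero j
            | succ k hk ih =>
              intro h2
              have e1 : (α 1 - α (k + 1)).2 = (α 1 - α k).2 + (α k - α (k + 1)).2 := by
                rw [← Prod.snd_add]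
                congr 1
                abel
              rw [e1]
              exact (ih (by omega)).add ((hgi k hk (by omega)).1 j hj)
          exact this m (by omega) le_rfl
        · intro hy0
          have hflip : ∀ i, 1 ≤ i → i ≤ m → y.2 ⬝ᵥ flip e (α 1 - α i).2 = 0 := by
            intro i h1
            induction i, h1 using Nat.le_induction with
            | base =>
              intro _
              simp [flip_zero]
            | succ k hk ih =>
              intro h2
              have e1 : (α 1 - α (k + 1)).2 = (α 1 - α k).2 + (α k - α (k + 1)).2 := by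
                rw [← Prod.snd_add]
                congr 1
                abel
              rw [e1, flip_add, dotProduct_add, ih (by omega), zero_add]
              have r1 := (hgi k hk (by omega)).2.1 hy0
              have r2 : InEdge (α k - α (k + 1)).2 (J k) :=
                ((hJ k hk (by omega)).1).sub ((hJ k hk (by omega)).2)
              obtain ⟨c, hc, hc'⟩ := twist_eq_flip (F := F) hn (heJ k hk (by omega)) r2
              rw [hc', dotProduct_smul, smul_eq_mul] at r1
              exact (mul_eq_zero.1 r1).resolve_left hc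
          have r2 : InEdge (α 1 - α m).2 j0 := j01.sub j02
          obtain ⟨c, hc, hc'⟩ := twist_eq_flip (F := F) hn he0 r2
          rw [hc', dotProduct_smul, hflip m (by omega) le_rfl]
          simp
        · intro hy0
          have : ∀ i, 1 ≤ i → i ≤ m →
              y.1 ⬝ᵥ (α 1 - α i).1 + y.2 ⬝ᵥ (α 1 - α i).2 = 0 := by
            intro i h1
            induction i, h1 using Nat.le_induction with
            | base =>
              intro _
              simp
            | succ k hk ih =>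
              intro h2
              have e1 : (α 1 - α (k + 1)) = (α 1 - α k) + (α k - α (k + 1)) := by
                abel
              rw [e1, Prod.fst_add, Prod.snd_add, dotProduct_add, dotProduct_add]
              have r1 := (hgi k hk (by omega)).2.2 hy0
              have r2 := ih (by omega)
              linear_combination r1 + r2
          exact this m (by omega) le_rfl
      have hγb : α 1 - α m ∈ (b 1 ⊔ b m).extent := by
        have : α 1 - α m = β 1 - β m := by
          rw [hαq 1 le_rfl (by omega), hαq m (by omega) le_rfl]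
          simp
        rw [this]
        exact ext_sub hn _ (j01.of_eq (hsnd 1 le_rfl (by omega)))
          (j02.of_eq (hsnd m (by omega) le_rfl)) hβ1 hβm
      have h1 := hRw _ hγw hγb
      have h2 := hRa _ (hα 1 le_rfl (by omega))
      have h3 : p = α 1 - (α 1 - α m) := by rw [hαm]; simp
      rw [h3]
      exact ext_sub hn _ j01 (j01.sub j02) h2 h1
    · -- not closed
      have hqb : q ∈ (b 1 ⊔ b m).extent := by
        apply zero_snd_mem hβ1 hβm _ hq0
        rintro ⟨j, j1, j2⟩
        exact hcl ⟨j, j1.of_eq (hsnd 1 le_rfl (by omega)).symm,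
          j2.of_eq (hsnd m (by omega) le_rfl).symm⟩
      have hα1b : α 1 ∈ (b 1 ⊔ b m).extent := by
        obtain ⟨j, _, j2⟩ := hed 1 le_rfl (by omega)
        rw [hαq 1 le_rfl (by omega)]
        exact ext_add hn _ (hqin j) j2 hqb hβ1
      have hαmb : α m ∈ (b 1 ⊔ b m).extent := by
        obtain ⟨j, _, j2⟩ := hed m (by omega) le_rfl
        rw [hαq m (by omega) le_rfl]
        exact ext_add hn _ (hqin j) j2 hqb hβm
      have hchain : ∀ i, 1 ≤ i → i ≤ m →
          α i ∈ (Concept.ofObject (Rel : Vec n F → Vec n F → Prop) (α 1) ⊔ w).extent := by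
        intro i h1
        induction i, h1 using Nat.le_induction with
        | base =>
          intro _
          exact (le_sup_left : Concept.ofObject (Rel : Vec n F → Vec n F → Prop) (α 1) ≤ _)
            (self_mem_ofObject _)
        | succ k hk ih =>
          intro h2
          obtain ⟨j, j1, j2⟩ := hall k hk (by omega)
          have e1 : α (k + 1) = α k - (α k - α (k + 1)) := by simp
          rw [e1]
          apply ext_sub hn _ j1 (j1.sub j2) (ih (by omega))
          exact (le_sup_right : w ≤ Concept.ofObject (Rel : Vec n F → Vec n F → Prop) (α 1) ⊔ w)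
            (hgood k hk (by omega) (hall k hk (by omega)))
      have : IsModularLattice (Lat n F) := modular hn
      have hA : Concept.ofObject (Rel : Vec n F → Vec n F → Prop) (α 1) ≤ b 1 ⊔ b m :=
        mem_ofObject.2 hα1b
      have hmod := sup_inf_assoc_of_le w hA
      have h1 : α m ∈ ((Concept.ofObject (Rel : Vec n F → Vec n F → Prop) (α 1) ⊔ w) ⊓
          (b 1 ⊔ b m)).extent := ⟨hchain m (by omega) le_rfl, hαmb⟩
      rw [hmod] at h1
      rw [← hαm]
      have h2 : Concept.ofObject (Rel : Vec n F → Vec n F → Prop) (α 1) ≤ a 1 :=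
        mem_ofObject.2 (hα 1 le_rfl (by omega))
      exact sup_le_sup_right h2 _ h1
  · -- some consecutive pair spans everything
    push Not at hall
    obtain ⟨i0, hi1, hi2, hi3⟩ := hall
    have hi3' : ¬ ∃ j, InEdge (α i0).2 j ∧ InEdge (α (i0 + 1)).2 j := by
      rintro ⟨j, j1, j2⟩
      exact hi3 j j1 j2
    have hiff : ∀ i, 1 ≤ i → i < m → (β i ∈ w.extent ↔ β (i + 1) ∈ w.extent) := by
      intro i h1 h2
      by_cases hc : ∃ j, InEdge (α i).2 j ∧ InEdge (α (i + 1)).2 j
      · have hg := hgood i h1 h2 hc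
        obtain ⟨j, j1, j2⟩ := hc
        have e0 : α i - α (i + 1) = β i - β (i + 1) := by
          rw [hαq i h1 h2.le, hαq (i + 1) (by omega) (by omega)]
          simp
        rw [e0] at hg
        have k1 := j1.of_eq (hsnd i h1 h2.le)
        have k2 := j2.of_eq (hsnd (i + 1) (by omega) (by omega))
        constructor
        · intro h
          have e1 : β (i + 1) = β i - (β i - β (i + 1)) := by simp
          rw [e1]
          exact ext_sub hn _ k1 (k1.sub k2) h hg
        · intro h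
          have e1 : β i = (β i - β (i + 1)) + β (i + 1) := by simp
          rw [e1]
          exact ext_add hn _ (k1.sub k2) k2 hg h
      · have := hbad i h1 h2 hc
        exact ⟨fun _ => this.2, fun _ => this.1⟩
    have hall1 : ∀ i, 1 ≤ i → i ≤ m → (β 1 ∈ w.extent ↔ β i ∈ w.extent) := by
      intro i h1
      induction i, h1 using Nat.le_induction with
      | base =>
        intro _
        rfl
      | succ k hk ih =>
        intro h2
        rw [ih (by omega)]
        exact hiff k hk (by omega)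
    have hb0 := hbad i0 hi1 hi2 hi3'
    have hb1 : β 1 ∈ w.extent := (hall1 i0 hi1 hi2.le).2 hb0.1
    have hbm' : β m ∈ w.extent := (hall1 m (by omega) le_rfl).1 hb1
    have h1 := hRw _ hb1 hβ1
    have h2 := hRw _ hbm' hβm
    have h3 := hRa _ (hα 1 le_rfl (by omega))
    have h4 : q ∈ (a 1 ⊔ (w ⊓ (b 1 ⊔ b m))).extent := by
      rw [hqe 1 le_rfl (by omega)]
      obtain ⟨j, j1, j2⟩ := hed 1 le_rfl (by omega)
      exact ext_sub hn _ j1 j2 h3 h1
    rw [← hαm, hαq m (by omega) le_rfl]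
    obtain ⟨j, _, j2⟩ := hed m (by omega) le_rfl
    exact ext_add hn _ (hqin j) j2 h4 h2

end Pool.Agent.Lib.MP_5acbe8_al
end

section

set_option autoImplicit false
set_option linter.unusedVariables false
set_option linter.unusedSectionVars false

namespace Pool.Agent.Lib.MP_5acbe8_al

open Order

variable {n : ℕ} {F : Type} [NeZero n] [Field F]

/-- Reversal. -/
def rv (φ : ZMod n → F) : ZMod n → F := fun i => φ (-i)

theorem rv_rv (φ : ZMod n → F) : rv (rv φ) = φ := by
  funext i
  simp [rv]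

theorem rv_dot (φ ψ : ZMod n → F) : rv φ ⬝ᵥ rv ψ = φ ⬝ᵥ ψ := by
  unfold dotProduct rv
  exact Fintype.sum_equiv (Equiv.neg (ZMod n)) _ _ (fun i => rfl)

/-- support is exactly `{0, 1}` -/
def S01 (φ : ZMod n → F) : Prop := φ 0 ≠ 0 ∧ φ 1 ≠ 0 ∧ InEdge φ 0

/-- support is exactly `{0}` -/
def S0 (φ : ZMod n → F) : Prop := φ 0 ≠ 0 ∧ ∀ i, φ i ≠ 0 → i = 0

theorem neg0_zero : neg0 (0 : ZMod n → F) = 0 := by
  funext i
  simp [neg0]

theorem neg0_dot (φ ψ : ZMod n → F) : neg0 φ ⬝ᵥ ψ = φ ⬝ᵥ neg0 ψ := by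
  unfold dotProduct neg0
  apply Finset.sum_congr rfl
  intro i _
  split_ifs <;> ring

theorem S01_neg0 (φ : ZMod n → F) : S01 (neg0 φ) ↔ S01 φ := by
  unfold S01
  rw [neg0_ne_iff, neg0_ne_iff, inEdge_neg0]

theorem S0_neg0 (φ : ZMod n → F) : S0 (neg0 φ) ↔ S0 φ := by
  unfold S0
  simp only [neg0_ne_iff]

open Classical in
noncomputable def gJ (x : Vec n F) : Vec n F := (x.1, if S01 x.2 then neg0 x.2 else x.2)

open Classical in
noncomputable def gM (y : Vec n F) : Vec n F := (y.1, if S0 y.1 then neg0 y.2 else y.2)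

def rev (x : Vec n F) : Vec n F := (rv x.2, rv x.1)

theorem rev_rev (x : Vec n F) : rev (rev x) = x := by
  simp [rev, rv_rv]

theorem gJ_gJ (x : Vec n F) : gJ (gJ x) = x := by
  unfold gJ
  by_cases h : S01 x.2
  · simp [h, S01_neg0, neg0_neg0]
  · simp [h]

theorem gM_gM (x : Vec n F) : gM (gM x) = x := by
  unfold gM
  by_cases h : S0 x.1
  · simp [h, neg0_neg0]
  · simp [h]

open Classical in
noncomputable def kap (φ μ : ZMod n → F) : F :=
  if (∀ i, φ i ≠ 0 → i = 0) ∧ (∀ i, μ i ≠ 0 → i = 0) then -1 else 1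

theorem neg0_of_zero {φ : ZMod n → F} (h : φ 0 = 0) : neg0 φ = φ := by
  funext i
  unfold neg0
  split_ifs with h1
  · rw [h1, h]
    simp
  · rfl

theorem neg0_of_only {φ : ZMod n → F} (h : ∀ i, φ i ≠ 0 → i = 0) : neg0 φ = -φ := by
  funext i
  unfold neg0
  split_ifs with h1
  · rfl
  · have : φ i = 0 := by
      by_contra h2
      exact h1 (h i h2)
    simp [this]

theorem compat_gJ (x : Vec n F) (j : ZMod n) : InEdge (gJ x).2 j ↔ InEdge x.2 j := by
  unfold gJ
  by_cases h : S01 x.2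
  · simp [h, inEdge_neg0]
  · simp [h]

theorem only_of {φ : ZMod n → F} (h0 : InEdge φ 0) (h1 : φ 1 = 0) : ∀ i, φ i ≠ 0 → i = 0 := by
  intro i hi
  rcases h0 i hi with h | h
  · exact h
  · rw [zero_add] at h
    rw [h] at hi
    exact absurd h1 hi

theorem twist_gJ (hn : 3 ≤ n) (x : Vec n F) :
    twist (gJ x).2 = kap x.2 (0 : ZMod n → F) • x.2 := by
  have h1n := one_ne (n := n) hn
  unfold gJ kap
  by_cases h : S01 x.2
  · have h1 : ¬ (∀ i, x.2 i ≠ 0 → i = 0) := by
      intro h2
      exact h1n (h2 1 h.2.1)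
    have h3 : InEdge (neg0 x.2) 0 := (inEdge_neg0 _ _).2 h.2.2
    simp [h, h1, twist, h3, neg0_neg0]
  · simp only [h, if_false]
    by_cases h0 : InEdge x.2 0
    · by_cases h2 : x.2 1 = 0
      · have h3 := only_of h0 h2
        rw [if_pos ⟨h3, by simp⟩]
        unfold twist
        rw [if_pos h0, neg0_of_only h3]
        simp
      · have h4 : x.2 0 = 0 := by
          by_contra h5
          exact h ⟨h5, h2, h0⟩
        have h3 : ¬ (∀ i, x.2 i ≠ 0 → i = 0) := by
          intro h5
          exact h1n (h5 1 h2)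
        rw [if_neg (fun h6 => h3 h6.1)]
        unfold twist
        rw [if_pos h0, neg0_of_zero h4]
        simp
    · have h3 : ¬ (∀ i, x.2 i ≠ 0 → i = 0) := by
        intro h5
        apply h0
        intro i hi
        exact Or.inl (h5 i hi)
      rw [if_neg (fun h6 => h3 h6.1)]
      unfold twist
      rw [if_neg h0]
      simp

theorem dot_gM_gJ (hn : 3 ≤ n) (x y : Vec n F) (hc : ∀ j, y.1 j ≠ 0 → InEdge x.2 j)
    (hy : y.1 ≠ 0) : (gM y).2 ⬝ᵥ (gJ x).2 = kap x.2 y.1 * (y.2 ⬝ᵥ x.2) := by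
  have h1n := one_ne (n := n) hn
  have h2n := two_ne (n := n) hn
  unfold gJ gM kap
  by_cases hS0 : S0 y.1
  · have h0 : InEdge x.2 0 := hc 0 hS0.1
    simp only [hS0, if_true]
    by_cases h : S01 x.2
    · have h3 : ¬ (∀ i, x.2 i ≠ 0 → i = 0) := by
        intro h2
        exact h1n (h2 1 h.2.1)
      rw [if_pos h, if_neg (fun h6 => h3 h6.1), neg0_dot, neg0_neg0, one_mul]
    · rw [if_neg h]
      by_cases h2 : x.2 1 = 0
      · have h3 := only_of h0 h2
        rw [if_pos ⟨h3, hS0.2⟩, neg0_dot, neg0_of_only h3, dotProduct_neg]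
        ring
      · have h4 : x.2 0 = 0 := by
          by_contra h5
          exact h ⟨h5, h2, h0⟩
        have h3 : ¬ (∀ i, x.2 i ≠ 0 → i = 0) := by
          intro h5
          exact h1n (h5 1 h2)
        rw [if_neg (fun h6 => h3 h6.1), neg0_dot, neg0_of_zero h4, one_mul]
  · have hex : ∃ j, j ≠ 0 ∧ y.1 j ≠ 0 := by
      by_contra hcon
      push Not at hcon
      apply hS0
      have h5 : ∀ i, y.1 i ≠ 0 → i = 0 := by
        intro i hi
        by_contra h6
        exact hi (hcon i h6)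
      refine ⟨?_, h5⟩
      intro h6
      apply hy
      funext i
      by_contra h7
      have := h5 i h7
      rw [this] at h7
      exact h7 h6
    obtain ⟨j, hj0, hj⟩ := hex
    have hS01 : ¬ S01 x.2 := by
      intro h
      have e1 := hc j hj 0 h.1
      have e2 := hc j hj 1 h.2.1
      grind
    have h3 : ¬ (∀ i, y.1 i ≠ 0 → i = 0) := by
      intro h5
      exact hj0 (h5 j hj)
    rw [if_neg hS0, if_neg hS01, if_neg (fun h6 => h3 h6.2), one_mul]

theorem relS_iff (hn : 3 ≤ n) (x y : Vec n F) :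
    Rel (gJ x) (gM y) ↔ (∀ j, y.1 j ≠ 0 → InEdge x.2 j) ∧
      y.1 ⬝ᵥ x.1 + kap x.2 y.1 * (y.2 ⬝ᵥ x.2) = 0 := by
  have e1 : (gM y).1 = y.1 := rfl
  have e2 : (gJ x).1 = x.1 := rfl
  unfold Rel
  rw [e1, e2]
  simp only [compat_gJ]
  constructor
  · rintro ⟨h1, h2, h3⟩
    refine ⟨h1, ?_⟩
    by_cases hy : y.1 = 0
    · have h4 := h2 hy
      have hS0 : ¬ S0 y.1 := by
        rw [hy]
        exact fun h => h.1 rfl
      have e3 : (gM y).2 = y.2 := by simp [gM, hS0]
      rw [twist_gJ hn, e3, dotProduct_smul, smul_eq_mul] at h4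
      rw [hy]
      simpa using h4
    · have h4 := h3 hy
      rw [dot_gM_gJ hn x y h1 hy] at h4
      exact h4
  · rintro ⟨h1, h2⟩
    refine ⟨h1, ?_, ?_⟩
    · intro hy
      have hS0 : ¬ S0 y.1 := by
        rw [hy]
        exact fun h => h.1 rfl
      have e3 : (gM y).2 = y.2 := by simp [gM, hS0]
      rw [twist_gJ hn, e3, dotProduct_smul, smul_eq_mul]
      rw [hy] at h2
      simpa using h2
    · intro hy
      rw [dot_gM_gJ hn x y h1 hy]
      exact h2

theorem relS_symm (hn : 3 ≤ n) (x y : Vec n F) (h : Rel (gJ x) (gM y)) :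
    Rel (gJ (rev y)) (gM (rev x)) := by
  rw [relS_iff hn] at h ⊢
  obtain ⟨h1, h2⟩ := h
  refine ⟨?_, ?_⟩
  · intro j hj i hi
    have hj' : x.2 (-j) ≠ 0 := hj
    have hi' : y.1 (-i) ≠ 0 := hi
    have h3 := h1 (-i) hi' (-j) hj'
    rcases h3 with h3 | h3
    · left
      exact neg_injective h3.symm
    · right
      have : i = - (-i) := by simp
      rw [this]
      have h4 : -i = -j - 1 := by rw [h3]; ring
      rw [h4]
      ring
  · have e1 : (rev x).1 ⬝ᵥ (rev y).1 = x.2 ⬝ᵥ y.2 := rv_dot _ _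
    have e2 : (rev x).2 ⬝ᵥ (rev y).2 = x.1 ⬝ᵥ y.1 := rv_dot _ _
    have e3 : kap (rev y).2 (rev x).1 = kap x.2 y.1 := by
      unfold kap
      have k1 : (∀ i, (rev y).2 i ≠ 0 → i = 0) ↔ (∀ i, y.1 i ≠ 0 → i = 0) := by
        constructor
        · intro h i hi
          have := h (-i) (by simpa [rev, rv] using hi)
          simpa using this
        · intro h i hi
          have := h (-i) hi
          simpa using this
      have k2 : (∀ i, (rev x).1 i ≠ 0 → i = 0) ↔ (∀ i, x.2 i ≠ 0 → i = 0) := by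
        constructor
        · intro h i hi
          have := h (-i) (by simpa [rev, rv] using hi)
          simpa using this
        · intro h i hi
          have := h (-i) hi
          simpa using this
      have k3 : ((∀ i, (rev y).2 i ≠ 0 → i = 0) ∧ (∀ i, (rev x).1 i ≠ 0 → i = 0)) ↔
          ((∀ i, x.2 i ≠ 0 → i = 0) ∧ (∀ i, y.1 i ≠ 0 → i = 0)) := by
        rw [k1, k2]
        exact and_comm
      by_cases h : (∀ i, x.2 i ≠ 0 → i = 0) ∧ (∀ i, y.1 i ≠ 0 → i = 0)
      · rw [if_pos h, if_pos (k3.2 h)]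
      · rw [if_neg h, if_neg (fun h' => h (k3.1 h'))]
    rw [e1, e2, e3]
    have hk : kap x.2 y.1 * kap x.2 y.1 = 1 := by
      unfold kap
      split_ifs <;> simp
    rw [dotProduct_comm x.2 y.2, dotProduct_comm x.1 y.1]
    linear_combination kap x.2 y.1 * h2 - (y.2 ⬝ᵥ x.2) * hk

/-- The anti-automorphism of the incidence relation. -/
noncomputable def fD (x : Vec n F) : Vec n F := gM (rev (gJ x))

noncomputable def gD (y : Vec n F) : Vec n F := gJ (rev (gM y))

theorem gD_fD (x : Vec n F) : gD (fD x) = x := by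
  unfold gD fD
  rw [gM_gM, rev_rev, gJ_gJ]

theorem fD_gD (x : Vec n F) : fD (gD x) = x := by
  unfold gD fD
  rw [gJ_gJ, rev_rev, gM_gM]

theorem rel_dual (hn : 3 ≤ n) (x y : Vec n F) : Rel x y ↔ Rel (gD y) (fD x) := by
  constructor
  · intro h
    have h1 : Rel (gJ (gJ x)) (gM (gM y)) := by rwa [gJ_gJ, gM_gM]
    exact relS_symm hn _ _ h1
  · intro h
    have h1 := relS_symm hn (rev (gM y)) (rev (gJ x)) h
    rw [rev_rev, rev_rev, gJ_gJ, gM_gM] at h1
    exact h1

/-- The antitone involution of the lattice. -/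
noncomputable def dual (hn : 3 ≤ n) (X : Lat n F) : Lat n F where
  extent := {x | fD x ∈ X.intent}
  intent := {y | gD y ∈ X.extent}
  upperPolar_extent := by
    ext y
    simp only [Set.mem_ofPred_eq, mem_upperPolar_iff]
    rw [mem_ext]
    constructor
    · intro h t ht
      have h1 : fD (gD t) ∈ X.intent := by rwa [fD_gD]
      have h2 := h h1
      rw [rel_dual hn, fD_gD] at h2
      exact h2
    · intro h x hx
      have h2 := h _ hx
      rw [rel_dual hn]
      exact h2
  lowerPolar_intent := by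
    ext x
    simp only [Set.mem_ofPred_eq, mem_lowerPolar_iff]
    rw [mem_int]
    constructor
    · intro h t ht
      have h1 : gD (fD t) ∈ X.extent := by rwa [gD_fD]
      have h2 := h h1
      rw [rel_dual hn, gD_fD] at h2
      exact h2
    · intro h y hy
      have h2 := h _ hy
      rw [rel_dual hn]
      exact h2

theorem dual_dual (hn : 3 ≤ n) (X : Lat n F) : dual hn (dual hn X) = X := by
  apply Concept.ext
  ext x
  show gD (fD x) ∈ X.extent ↔ x ∈ X.extent
  rw [gD_fD]

theorem dual_le (hn : 3 ≤ n) {X Y : Lat n F} (h : X ≤ Y) : dual hn Y ≤ dual hn X := by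
  intro x hx
  have h1 : Y.intent ⊆ X.intent := Concept.intent_subset_intent_iff.2 h
  exact h1 hx

theorem dual_le_iff (hn : 3 ≤ n) {X Y : Lat n F} : dual hn Y ≤ dual hn X ↔ X ≤ Y := by
  constructor
  · intro h
    have := dual_le hn h
    rwa [dual_dual, dual_dual] at this
  · exact dual_le hn

theorem dual_sup (hn : 3 ≤ n) (X Y : Lat n F) : dual hn (X ⊔ Y) = dual hn X ⊓ dual hn Y := by
  apply le_antisymm
  · exact le_inf (dual_le hn le_sup_left) (dual_le hn le_sup_right)
  · have h : X ⊔ Y ≤ dual hn (dual hn X ⊓ dual hn Y) := by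
      apply sup_le
      · have := dual_le hn (inf_le_left : dual hn X ⊓ dual hn Y ≤ dual hn X)
        rwa [dual_dual] at this
      · have := dual_le hn (inf_le_right : dual hn X ⊓ dual hn Y ≤ dual hn Y)
        rwa [dual_dual] at this
    have := dual_le hn h
    rwa [dual_dual] at this

theorem dual_inf (hn : 3 ≤ n) (X Y : Lat n F) : dual hn (X ⊓ Y) = dual hn X ⊔ dual hn Y := by
  have := dual_sup hn (dual hn X) (dual hn Y)
  rw [dual_dual, dual_dual] at this
  rw [← this, dual_dual]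

theorem fD_fst_eq_zero {x : Vec n F} (h : (fD x).1 = 0) : x.2 = 0 := by
  have h1 : (fD x).1 = rv (gJ x).2 := rfl
  rw [h1] at h
  have h2 : (gJ x).2 = 0 := by
    have := congrArg rv h
    rw [rv_rv] at this
    rw [this]
    funext i
    rfl
  funext i
  by_contra h3
  have : twist x.2 i ≠ 0 := (twist_ne_iff _ _).2 h3
  unfold gJ at h2
  by_cases hS : S01 x.2
  · simp only [hS, if_true] at h2
    have := (neg0_ne_iff x.2 i).2 h3
    rw [h2] at this
    exact this rfl
  · simp only [hS, if_false] at h2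
    rw [h2] at h3
    exact h3 rfl

/-- Dual form of `typeZero`. -/
theorem typeTop (hn : 3 ≤ n) (m : ℕ) (hm : 2 ≤ m) (hmn : m < n) (z w : Lat n F)
    (a b : ℕ → Lat n F) (hw0 : ∀ y ∈ w.intent, y.1 = 0)
    (hz : ∀ i, 1 ≤ i → i < m → z ≤ a i ⊔ b i)
    (hw : ∀ i, 1 ≤ i → i < m → (a i ⊔ a (i + 1)) ⊓ (b i ⊔ b (i + 1)) ≤ w) :
    a m ⊓ (z ⊔ b m) ≤ a 1 ⊔ (w ⊓ (b 1 ⊔ b m)) := by
  have key := typeZero hn m hm hmn (dual hn w) (dual hn z)
    (fun i => if i = m then dual hn (a 1) else dual hn (a (m - i) ⊔ a (m - i + 1)))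
    (fun i => if i = m then dual hn (b 1 ⊔ b m) else dual hn (b (m - i) ⊔ b (m - i + 1)))
    (fun x hx => fD_fst_eq_zero (hw0 _ hx))
    (by
      intro i h1 h2
      have h3 : i ≠ m := by omega
      simp only [h3, if_false]
      rw [← dual_inf]
      exact dual_le hn (hw (m - i) (by omega) (by omega)))
    (by
      intro i h1 h2
      have h3 : i ≠ m := by omega
      simp only [h3, if_false]
      by_cases h4 : i + 1 = m
      · simp only [h4, if_true]
        rw [← dual_inf, ← dual_inf, ← dual_sup]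
        apply dual_le
        have e : m - i = 1 := by omega
        rw [e]
        refine (hz 1 le_rfl (by omega)).trans ?_
        apply sup_le_sup
        · exact le_inf le_sup_left le_rfl
        · exact le_inf le_sup_left le_sup_left
      · simp only [h4, if_false]
        rw [← dual_inf, ← dual_inf, ← dual_sup]
        apply dual_le
        have e : m - (i + 1) + 1 = m - i := by omega
        rw [e]
        refine (hz (m - i) (by omega) (by omega)).trans ?_
        apply sup_le_sup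
        · exact le_inf le_sup_left le_sup_right
        · exact le_inf le_sup_left le_sup_right)
  have h1m : (1 : ℕ) ≠ m := by omega
  simp only [if_true, h1m, if_false] at key
  simp only [← dual_inf, ← dual_sup, dual_le_iff] at key
  have e : m - 1 + 1 = m := by omega
  rw [e] at key
  refine le_trans ?_ key
  apply inf_le_inf
  · exact le_sup_right
  · apply sup_le_sup le_rfl
    exact le_inf le_sup_right le_sup_right

end Pool.Agent.Lib.MP_5acbe8_al
end
end
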