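import Mathlib
import Pool.Agent.Lib.MP_5acbe8_al.Duality

section

set_option autoImplicit false
set_option linter.unusedVariables false
set_option linter.unusedSectionVars false

namespace Pool.Agent.Lib.MP_5acbe8_al

open Order

section General

variable {L : Type} [Lattice L] [IsModularLattice L] [Finite L]

/-- Minimal pairs below a join in a finite modular lattice. -/
theorem min_pair {p X Y : L} (hp : SupIrred p) (h : p ≤ X ⊔ Y) :
    ∃ q, q ≤ X ∧ ∃ r, r ≤ Y ∧ p ≤ q ⊔ r ∧ q ≤ p ⊔ r ∧ r ≤ p ⊔ q ∧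
      (SupIrred q ∨ IsMin q) ∧ (SupIrred r ∨ IsMin r) := by
  let S : Set (L × L) := {t | t.1 ≤ X ∧ t.2 ≤ Y ∧ p ≤ t.1 ⊔ t.2}
  have hne : S.Nonempty := ⟨(X, Y), le_rfl, le_rfl, h⟩
  obtain ⟨⟨q, r⟩, ⟨hqX, hrY, hpqr⟩, hmin⟩ :=
    (wellFounded_lt (α := L × L)).has_min S hne
  have hmin1 : ∀ q' r' : L, q' ≤ q → r' ≤ r → p ≤ q' ⊔ r' → q' = q ∧ r' = r := by
    intro q' r' h1 h2 h3
    have h4 : ¬ (q', r') < (q, r) := hmin (q', r') ⟨h1.trans hqX, h2.trans hrY, h3⟩
    have h5 : (q', r') ≤ (q, r) := ⟨h1, h2⟩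
    have h6 : (q', r') = (q, r) := by
      by_contra h7
      exact h4 (lt_of_le_of_ne h5 h7)
    exact ⟨congrArg Prod.fst h6, congrArg Prod.snd h6⟩
  have hqpr : q ≤ p ⊔ r := by
    have h1 : p ≤ ((p ⊔ r) ⊓ q) ⊔ r := by
      rw [inf_sup_assoc_of_le q (le_sup_right : r ≤ p ⊔ r)]
      exact le_inf le_sup_left hpqr
    have h2 := (hmin1 _ _ inf_le_right le_rfl h1).1
    rw [← h2]
    exact inf_le_left
  have hrpq : r ≤ p ⊔ q := by
    have h1 : p ≤ q ⊔ ((p ⊔ q) ⊓ r) := by
      rw [sup_comm, inf_sup_assoc_of_le r (le_sup_right : q ≤ p ⊔ q), sup_comm r q]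
      exact le_inf le_sup_left hpqr
    have h2 := (hmin1 _ _ le_rfl inf_le_right h1).2
    rw [← h2]
    exact inf_le_left
  -- irreducibility
  have key : ∀ q r : L, p ≤ q ⊔ r → q ≤ p ⊔ r → (∀ q', q' ≤ q → p ≤ q' ⊔ r → q' = q) →
      (SupIrred q ∨ IsMin q) := by
    intro q r h1 h2 h3
    by_cases hm : IsMin q
    · exact Or.inr hm
    · left
      refine ⟨hm, ?_⟩
      intro b c hbc
      by_contra hcon
      push Not at hcon
      obtain ⟨hb, hc⟩ := hcon
      have hbq : b ≤ q := hbc ▸ le_sup_left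
      have hcq : c ≤ q := hbc ▸ le_sup_right
      have hpb : ¬ p ≤ b ⊔ r := fun h => hb (h3 b hbq h)
      have hpc : ¬ p ≤ c ⊔ r := fun h => hc (h3 c hcq h)
      have eb : (b ⊔ r) ⊓ p ⊔ r = b ⊔ r := by
        rw [inf_sup_assoc_of_le p (le_sup_right : r ≤ b ⊔ r)]
        exact inf_eq_left.2 (sup_le (hbq.trans h2) le_sup_right)
      have ec : (c ⊔ r) ⊓ p ⊔ r = c ⊔ r := by
        rw [inf_sup_assoc_of_le p (le_sup_right : r ≤ c ⊔ r)]
        exact inf_eq_left.2 (sup_le (hcq.trans h2) le_sup_right)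
      have hk : ((b ⊔ r) ⊓ p) ⊔ ((c ⊔ r) ⊓ p) = p := by
        apply le_antisymm
        · exact sup_le inf_le_right inf_le_right
        · have hkp : ((b ⊔ r) ⊓ p) ⊔ ((c ⊔ r) ⊓ p) ≤ p := sup_le inf_le_right inf_le_right
          have h5 : p ≤ r ⊔ (((b ⊔ r) ⊓ p) ⊔ ((c ⊔ r) ⊓ p)) := by
            refine h1.trans ?_
            rw [← hbc]
            refine sup_le (sup_le ?_ ?_) le_sup_left
            · refine (le_sup_left : b ≤ b ⊔ r).trans ((le_of_eq eb.symm).trans ?_)
              exact sup_le (le_sup_left.trans le_sup_right) le_sup_left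
            · refine (le_sup_left : c ≤ c ⊔ r).trans ((le_of_eq ec.symm).trans ?_)
              exact sup_le (le_sup_right.trans le_sup_right) le_sup_left
          have h6 : p ⊓ r ⊔ (((b ⊔ r) ⊓ p) ⊔ ((c ⊔ r) ⊓ p)) =
              p ⊓ (r ⊔ (((b ⊔ r) ⊓ p) ⊔ ((c ⊔ r) ⊓ p))) := inf_sup_assoc_of_le r hkp
          have h7 : p ≤ p ⊓ r ⊔ (((b ⊔ r) ⊓ p) ⊔ ((c ⊔ r) ⊓ p)) := by
            rw [h6]
            exact le_inf le_rfl h5
          refine h7.trans (sup_le ?_ le_rfl)
          refine le_trans ?_ le_sup_left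
          exact le_inf (inf_le_right.trans le_sup_right) inf_le_left
      rcases hp.2 hk with h8 | h8
      · exact hpb (by rw [← h8]; exact inf_le_left)
      · exact hpc (by rw [← h8]; exact inf_le_left)
  refine ⟨q, hqX, r, hrY, hpqr, hqpr, hrpq, ?_, ?_⟩
  · exact key q r hpqr hqpr (fun q' h1 h2 => (hmin1 q' r h1 le_rfl h2).1)
  · apply key r q (by rwa [sup_comm]) hrpq
    intro r' h1 h2
    exact (hmin1 q r' le_rfl h1 (by rwa [sup_comm])).2

theorem max_pair {w X Y : L} (hw : InfIrred w) (h : X ⊓ Y ≤ w) :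
    ∃ x, X ≤ x ∧ ∃ y, Y ≤ y ∧ x ⊓ y ≤ w ∧ w ⊓ y ≤ x ∧ w ⊓ x ≤ y ∧
      (InfIrred x ∨ IsMax x) ∧ (InfIrred y ∨ IsMax y) := by
  have hw' : SupIrred (OrderDual.toDual w) := supIrred_toDual.2 hw
  obtain ⟨x, hx, y, hy, h1, h2, h3, h4, h5⟩ :=
    min_pair (L := Lᵒᵈ) (X := OrderDual.toDual X) (Y := OrderDual.toDual Y) hw' h
  refine ⟨OrderDual.ofDual x, hx, OrderDual.ofDual y, hy, h1, h2, h3, ?_, ?_⟩
  · rcases h4 with h4 | h4
    · exact Or.inl (infIrred_ofDual.2 h4)
    · exact Or.inr h4
  · rcases h5 with h5 | h5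
    · exact Or.inl (infIrred_ofDual.2 h5)
    · exact Or.inr h5

/-- An element which is not below another one dominates an irreducible with this property. -/
theorem exists_supIrred {x y : L} (h : ¬ x ≤ y) : ∃ p, SupIrred p ∧ p ≤ x ∧ ¬ p ≤ y := by
  let S : Set L := {t | t ≤ x ∧ ¬ t ≤ y}
  obtain ⟨p, ⟨hp1, hp2⟩, hmin⟩ := (wellFounded_lt (α := L)).has_min S ⟨x, le_rfl, h⟩
  refine ⟨p, ⟨?_, ?_⟩, hp1, hp2⟩
  · intro hm
    apply hp2
    have : p ⊓ y ≤ p := inf_le_left
    exact (hm this).trans inf_le_right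
  · intro b c hbc
    by_contra hcon
    push Not at hcon
    obtain ⟨hb, hc⟩ := hcon
    have hbp : b ≤ p := hbc ▸ le_sup_left
    have hcp : c ≤ p := hbc ▸ le_sup_right
    have h1 : b ≤ y := by
      by_contra h2
      exact hmin b ⟨hbp.trans hp1, h2⟩ (lt_of_le_of_ne hbp hb)
    have h2 : c ≤ y := by
      by_contra h2
      exact hmin c ⟨hcp.trans hp1, h2⟩ (lt_of_le_of_ne hcp hc)
    exact hp2 (by rw [← hbc]; exact sup_le h1 h2)

theorem exists_infIrred {x y : L} (h : ¬ x ≤ y) : ∃ w, InfIrred w ∧ y ≤ w ∧ ¬ x ≤ w := by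
  obtain ⟨p, h1, h2, h3⟩ := exists_supIrred (L := Lᵒᵈ) (x := OrderDual.toDual y)
    (y := OrderDual.toDual x) h
  exact ⟨OrderDual.ofDual p, infIrred_ofDual.2 h1, h2, h3⟩

end General

section Attr

variable {n : ℕ} {F : Type} [NeZero n] [Field F]

theorem zero_mem_int (X : Lat n F) : (0 : Vec n F) ∈ X.intent := by
  rw [mem_int]
  intro x _
  refine ⟨fun j hj => absurd rfl hj, ?_, fun h => absurd rfl h⟩
  intro _
  simp

theorem mem_ofAttribute {y : Vec n F} {Q : Lat n F} :
    Q ≤ Concept.ofAttribute Rel y ↔ y ∈ Q.intent := by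
  simp

end Attr

section Concrete

variable {n : ℕ} {F : Type} [NeZero n] [Field F] [Finite F]

instance : Finite (Vec n F) := by
  unfold Vec
  infer_instance

instance : Finite (Lat n F) :=
  Finite.of_injective (fun X : Lat n F => X.extent) Concept.extent_injective

theorem exists_object {q : Lat n F} (h : SupIrred q ∨ IsMin q) :
    ∃ x : Vec n F, q = Concept.ofObject Rel x := by
  classical
  have : Fintype (Vec n F) := Fintype.ofFinite _
  rcases h with h | h
  · have h1 : (Finset.univ.filter (fun x : Vec n F => x ∈ q.extent)).sup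
        (fun x => (Concept.ofObject Rel x : Lat n F)) = q := by
      apply le_antisymm
      · apply Finset.sup_le
        intro x hx
        exact mem_ofObject.2 (Finset.mem_filter.1 hx).2
      · intro x hx
        have h2 : (Concept.ofObject Rel x : Lat n F) ≤
            (Finset.univ.filter (fun x : Vec n F => x ∈ q.extent)).sup
            (fun x => (Concept.ofObject Rel x : Lat n F)) :=
          Finset.le_sup (f := fun x => (Concept.ofObject Rel x : Lat n F))
            (Finset.mem_filter.2 ⟨Finset.mem_univ x, hx⟩)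
        exact h2 (self_mem_ofObject x)
    obtain ⟨x, _, hx⟩ := h.finset_sup_eq h1
    exact ⟨x, hx.symm⟩
  · refine ⟨0, le_antisymm ?_ (mem_ofObject.2 (zero_mem_ext q))⟩
    exact h (mem_ofObject.2 (zero_mem_ext q))

theorem exists_attribute {q : Lat n F} (h : InfIrred q ∨ IsMax q) :
    ∃ y : Vec n F, q = Concept.ofAttribute Rel y := by
  classical
  have : Fintype (Vec n F) := Fintype.ofFinite _
  rcases h with h | h
  · have h1 : (Finset.univ.filter (fun y : Vec n F => y ∈ q.intent)).inf
        (fun y => (Concept.ofAttribute Rel y : Lat n F)) = q := by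
      apply le_antisymm
      · intro x hx
        rw [mem_ext]
        intro y hy
        have h2 : (Finset.univ.filter (fun y : Vec n F => y ∈ q.intent)).inf
            (fun y => (Concept.ofAttribute Rel y : Lat n F)) ≤
            (Concept.ofAttribute Rel y : Lat n F) :=
          Finset.inf_le (f := fun y => (Concept.ofAttribute Rel y : Lat n F))
            (Finset.mem_filter.2 ⟨Finset.mem_univ y, hy⟩)
        have h3 := h2 hx
        exact (mem_ext.1 h3) y (mem_ofAttribute.1 le_rfl)
      · apply Finset.le_inf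
        intro y hy
        exact mem_ofAttribute.2 (Finset.mem_filter.1 hy).2
    obtain ⟨x, _, hx⟩ := h.finset_inf_eq h1
    exact ⟨x, hx.symm⟩
  · refine ⟨0, le_antisymm (mem_ofAttribute.2 (zero_mem_int q)) ?_⟩
    exact h (mem_ofAttribute.2 (zero_mem_int q))

end Concrete

end Pool.Agent.Lib.MP_5acbe8_al
end

section

set_option autoImplicit false
set_option linter.unusedVariables false
set_option linter.unusedSectionVars false

namespace Pool.Agent.Lib.MP_5acbe8_al

open Order

section Linear

variable {F V : Type} [Field F] [AddCommGroup V] [Module F V]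

/-- The higher Arguesian laws hold in subspace lattices. -/
theorem linear_law (m : ℕ) (hm : 1 ≤ m) (z w : Submodule F V) (a b : ℕ → Submodule F V)
    (hz : ∀ i, 1 ≤ i → i < m → z ≤ a i ⊔ b i)
    (hw : ∀ i, 1 ≤ i → i < m → (a i ⊔ a (i + 1)) ⊓ (b i ⊔ b (i + 1)) ≤ w) :
    a m ⊓ (z ⊔ b m) ≤ a 1 ⊔ (w ⊓ (b 1 ⊔ b m)) := by
  intro p hp
  obtain ⟨hpa, hpb⟩ := hp
  obtain ⟨q, hq, r, hr, hqr⟩ := Submodule.mem_sup.1 hpb
  have hex : ∀ i, ∃ x y : V, (1 ≤ i → i ≤ m → x ∈ a i ∧ y ∈ b i ∧ q = x - y) ∧
      (i = m → x = p) := by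
    intro i
    by_cases him : i = m
    · subst him
      exact ⟨p, r, fun _ _ => ⟨hpa, hr, by rw [← hqr]; simp⟩, fun _ => rfl⟩
    · by_cases hi : 1 ≤ i ∧ i < m
      · obtain ⟨x, hx, y, hy, hxy⟩ := Submodule.mem_sup.1 (hz i hi.1 hi.2 hq)
        exact ⟨x, -y, fun _ _ => ⟨hx, (b i).neg_mem hy, by rw [← hxy]; simp⟩,
          fun h => absurd h him⟩
      · exact ⟨0, 0, fun h1 h2 => absurd ⟨h1, lt_of_le_of_ne h2 him⟩ hi, fun h => absurd h him⟩
  choose α β hαβ using hex
  have hα : ∀ i, 1 ≤ i → i ≤ m → α i ∈ a i := fun i h1 h2 => ((hαβ i).1 h1 h2).1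
  have hβ : ∀ i, 1 ≤ i → i ≤ m → β i ∈ b i := fun i h1 h2 => ((hαβ i).1 h1 h2).2.1
  have hqe : ∀ i, 1 ≤ i → i ≤ m → α i = q + β i := by
    intro i h1 h2
    rw [((hαβ i).1 h1 h2).2.2]
    simp
  have hαm : α m = p := (hαβ m).2 rfl
  have htel : ∀ i, 1 ≤ i → i ≤ m → α 1 - α i ∈ w := by
    intro i h1
    induction i, h1 using Nat.le_induction with
    | base =>
      intro _
      simp
    | succ k hk ih =>
      intro h2
      have e1 : α 1 - α (k + 1) = (α 1 - α k) + (α k - α (k + 1)) := by abel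
      rw [e1]
      apply w.add_mem (ih (by omega))
      apply hw k hk (by omega)
      constructor
      · exact Submodule.sub_mem _ (Submodule.mem_sup_left (hα k hk (by omega)))
          (Submodule.mem_sup_right (hα (k + 1) (by omega) (by omega)))
      · have e2 : α k - α (k + 1) = β k - β (k + 1) := by
          rw [hqe k hk (by omega), hqe (k + 1) (by omega) (by omega)]
          simp
        rw [e2]
        exact Submodule.sub_mem _ (Submodule.mem_sup_left (hβ k hk (by omega)))
          (Submodule.mem_sup_right (hβ (k + 1) (by omega) (by omega)))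
  have h1 : α 1 - α m ∈ w ⊓ (b 1 ⊔ b m) := by
    refine ⟨htel m hm le_rfl, ?_⟩
    have e2 : α 1 - α m = β 1 - β m := by
      rw [hqe 1 le_rfl hm, hqe m hm le_rfl]
      simp
    rw [e2]
    exact Submodule.sub_mem _ (Submodule.mem_sup_left (hβ 1 le_rfl hm))
      (Submodule.mem_sup_right (hβ m hm le_rfl))
  have h2 : p = α 1 - (α 1 - α m) := by rw [hαm]; simp
  rw [h2]
  exact Submodule.sub_mem _ (Submodule.mem_sup_left (hα 1 le_rfl hm))
    (Submodule.mem_sup_right h1)

end Linear

variable {n : ℕ} {F : Type} [NeZero n] [Field F]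

/-- support is exactly `{e, e+1}` -/
def Full (φ : ZMod n → F) (e : ZMod n) : Prop := φ e ≠ 0 ∧ φ (e + 1) ≠ 0 ∧ InEdge φ e

/-- support is contained in some edge -/
def Edgy (φ : ZMod n → F) : Prop := ∃ j, InEdge φ j

open Classical in
noncomputable def tl (e : ZMod n) (φ : ZMod n → F) : ZMod n → F :=
  if Edgy φ then φ else flip e φ

open Classical in
noncomputable def tlc (e : ZMod n) (y : Vec n F) : ZMod n → F :=
  if y.1 = 0 then flip e y.2 else y.2

theorem tl_ne_iff (e : ZMod n) (φ : ZMod n → F) (i : ZMod n) : tl e φ i ≠ 0 ↔ φ i ≠ 0 := by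
  unfold tl
  split_ifs
  · rfl
  · exact flip_ne_iff e φ i

theorem inEdge_tl (e : ZMod n) (φ : ZMod n → F) (j : ZMod n) : InEdge (tl e φ) j ↔ InEdge φ j :=
  inEdge_congr (tl_ne_iff e φ) j

theorem edgy_tl (e : ZMod n) (φ : ZMod n → F) : Edgy (tl e φ) ↔ Edgy φ := by
  unfold Edgy
  simp only [inEdge_tl]

theorem full_tl (e : ZMod n) (φ : ZMod n → F) : Full (tl e φ) e ↔ Full φ e := by
  unfold Full
  simp only [inEdge_tl, tl_ne_iff]

theorem tl_tl (e : ZMod n) (φ : ZMod n → F) : tl e (tl e φ) = φ := by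
  by_cases h : Edgy φ
  · have h1 : tl e φ = φ := by simp [tl, h]
    rw [h1, h1]
  · have h1 : tl e φ = flip e φ := by simp [tl, h]
    have h2 : ¬ Edgy (flip e φ) := by
      rw [← h1, edgy_tl]
      exact h
    rw [h1]
    simp [tl, h2, flip_flip]

theorem twist_tl (hn : 3 ≤ n) {e : ZMod n} {φ : ZMod n → F} (h : ¬ Full φ e) :
    ∃ c : F, c ≠ 0 ∧ twist φ = c • flip e (tl e φ) := by
  have h1n := one_ne (n := n) hn
  by_cases hE : Edgy φ
  · have h1 : tl e φ = φ := by simp [tl, hE]
    rw [h1]
    obtain ⟨j, hj⟩ := hE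
    by_cases hje : j = e
    · subst hje
      by_cases h0 : φ j = 0
      · -- support in {j+1}
        have h2 : InEdge φ (j + 1) := by
          intro i hi
          rcases hj i hi with h3 | h3
          · rw [h3] at hi
            exact absurd h0 hi
          · exact Or.inl h3
        exact twist_eq_flip hn (fun h => h1n (by linear_combination h)) h2
      · have h5 : φ (j + 1) = 0 := by
          by_contra h6
          exact h ⟨h0, h6, hj⟩
        have h2 : InEdge φ (j - 1) := by
          intro i hi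
          rcases hj i hi with h3 | h3
          · right
            rw [h3]
            ring
          · rw [h3] at hi
            exact absurd h5 hi
        exact twist_eq_flip hn (fun h => h1n (by linear_combination -h)) h2
    · exact twist_eq_flip hn hje hj
  · refine ⟨1, one_ne_zero, ?_⟩
    have h1 : tl e φ = flip e φ := by simp [tl, hE]
    rw [h1, flip_flip, one_smul]
    have h0 : ¬ InEdge φ 0 := fun h => hE ⟨0, h⟩
    simp [twist, h0]

/-- The subspace attached to a vector. -/
noncomputable def subG (e : ZMod n) (a : Vec n F) : Submodule F (Vec n F) where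
  carrier := {x | ∃ c : F, x.2 = c • tl e a.2 ∧ ∀ j, InEdge a.2 j → x.1 j = c * a.1 j}
  add_mem' := by
    rintro x y ⟨c, h1, h2⟩ ⟨d, h3, h4⟩
    refine ⟨c + d, ?_, ?_⟩
    · rw [Prod.snd_add, h1, h3, add_smul]
    · intro j hj
      rw [Prod.fst_add, Pi.add_apply, h2 j hj, h4 j hj]
      ring
  zero_mem' := ⟨0, by simp, by simp⟩
  smul_mem' := by
    rintro c x ⟨d, h1, h2⟩
    refine ⟨c * d, ?_, ?_⟩
    · rw [Prod.smul_snd, h1, smul_smul]
    · intro j hj
      rw [Prod.smul_fst, Pi.smul_apply, h2 j hj, smul_eq_mul]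
      ring

/-- The subspace attached to a covector. -/
noncomputable def subH (e : ZMod n) (y : Vec n F) : Submodule F (Vec n F) where
  carrier := {x | (∀ j, y.1 j ≠ 0 → InEdge x.2 j) ∧ y.1 ⬝ᵥ x.1 + tlc e y ⬝ᵥ x.2 = 0}
  add_mem' := by
    rintro x x' ⟨h1, h2⟩ ⟨h3, h4⟩
    refine ⟨fun j hj => (h1 j hj).add (h3 j hj), ?_⟩
    rw [Prod.fst_add, Prod.snd_add, dotProduct_add, dotProduct_add]
    linear_combination h2 + h4
  zero_mem' := by
    refine ⟨fun j hj => inEdge_zero j, ?_⟩
    simp
  smul_mem' := by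
    rintro c x ⟨h1, h2⟩
    refine ⟨fun j hj => (h1 j hj).smul c, ?_⟩
    rw [Prod.smul_fst, Prod.smul_snd, dotProduct_smul, dotProduct_smul, smul_eq_mul, smul_eq_mul]
    linear_combination c * h2

theorem mem_subG_self (e : ZMod n) (a : Vec n F) : ((a.1, tl e a.2) : Vec n F) ∈ subG e a :=
  ⟨1, by simp, by simp⟩

theorem rel_iff_mem (hn : 3 ≤ n) {e : ZMod n} {a y : Vec n F} (h : ¬ Full a.2 e) :
    Rel a y ↔ ((a.1, tl e a.2) : Vec n F) ∈ subH e y := by
  obtain ⟨c, hc, hc'⟩ := twist_tl (F := F) hn h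
  constructor
  · rintro ⟨h1, h2, h3⟩
    refine ⟨fun j hj => (inEdge_tl _ _ _).2 (h1 j hj), ?_⟩
    by_cases hy : y.1 = 0
    · have h4 := h2 hy
      rw [hc', dotProduct_smul, smul_eq_mul, dot_flip] at h4
      have h5 := (mul_eq_zero.1 h4).resolve_left hc
      have h6 : tlc e y = flip e y.2 := by simp [tlc, hy]
      simp only [h6, hy]
      rw [h5]
      simp
    · have h4 := h3 hy
      have h6 : tlc e y = y.2 := by simp [tlc, hy]
      have hE : Edgy a.2 := by
        obtain ⟨j, hj⟩ := Function.ne_iff.1 hy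
        exact ⟨j, h1 j hj⟩
      have h7 : tl e a.2 = a.2 := by simp [tl, hE]
      simp only [h6, h7]
      exact h4
  · rintro ⟨h1, h2⟩
    have h1' : ∀ j, y.1 j ≠ 0 → InEdge a.2 j := fun j hj => (inEdge_tl _ _ _).1 (h1 j hj)
    refine ⟨h1', ?_, ?_⟩
    · intro hy
      have h6 : tlc e y = flip e y.2 := by simp [tlc, hy]
      simp only [h6, hy] at h2
      rw [zero_dotProduct, zero_add] at h2
      rw [hc', dotProduct_smul, smul_eq_mul, dot_flip, h2, mul_zero]
    · intro hy
      have h6 : tlc e y = y.2 := by simp [tlc, hy]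
      have hE : Edgy a.2 := by
        obtain ⟨j, hj⟩ := Function.ne_iff.1 hy
        exact ⟨j, h1' j hj⟩
      have h7 : tl e a.2 = a.2 := by simp [tl, hE]
      simp only [h6, h7] at h2
      exact h2

theorem subG_le_subH (hn : 3 ≤ n) {e : ZMod n} {a y : Vec n F} (h : ¬ Full a.2 e)
    (hr : Rel a y) : subG e a ≤ subH e y := by
  obtain ⟨h1, h2⟩ := (rel_iff_mem hn h).1 hr
  rintro x ⟨c, h3, h4⟩
  refine ⟨?_, ?_⟩
  · intro j hj
    rw [h3]
    exact (h1 j hj).smul c
  · have h5 : y.1 ⬝ᵥ x.1 = c * (y.1 ⬝ᵥ a.1) := by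
      unfold dotProduct
      rw [Finset.mul_sum]
      apply Finset.sum_congr rfl
      intro j _
      by_cases hj : y.1 j = 0
      · simp [hj]
      · rw [h4 j ((inEdge_tl _ _ _).1 (h1 j hj))]
        ring
    rw [h5, h3, dotProduct_smul, smul_eq_mul]
    simp only at h2
    linear_combination c * h2

theorem tlc_cov (e : ZMod n) (μ ν : ZMod n → F) : tlc e (cov e μ ν) = ν := by
  unfold tlc
  rw [cov_fst]
  by_cases h : μ = 0
  · simp [h, cov, flip_flip]
  · simp [h, cov]

theorem subG_le_sup (hn : 3 ≤ n) {e : ZMod n} {z a b : Vec n F} (hz : ¬ Full z.2 e)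
    (ha : ¬ Full a.2 e) (hb : ¬ Full b.2 e)
    (h : (Concept.ofObject Rel z : Lat n F) ≤ Concept.ofObject Rel a ⊔ Concept.ofObject Rel b) :
    subG e z ≤ subG e a ⊔ subG e b := by
  have h' : ∀ y, Rel a y → Rel b y → Rel z y := by
    intro y h1 h2
    have h3 : (Concept.ofObject Rel z : Lat n F) ≤ Concept.ofAttribute Rel y := by
      refine h.trans (sup_le ?_ ?_)
      · exact Concept.ofObject_le_ofAttribute_iff.2 h1
      · exact Concept.ofObject_le_ofAttribute_iff.2 h2
    exact Concept.ofObject_le_ofAttribute_iff.1 h3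
  intro x hx
  by_contra hcon
  obtain ⟨f, hf1, hf2⟩ := Submodule.exists_le_ker_of_notMem hcon
  obtain ⟨μ, ν, hf⟩ := functional_rep f
  have key : ∀ t : Vec n F, ¬ Full t.2 e → (∀ x ∈ subG e t, f x = 0) → Rel t (cov e μ ν) := by
    intro t ht hft
    rw [rel_iff_mem hn ht]
    refine ⟨?_, ?_⟩
    · intro j hj
      rw [cov_fst] at hj
      by_contra hj'
      rw [inEdge_tl] at hj'
      have h1 : ((Pi.single j 1, 0) : Vec n F) ∈ subG e t := by
        refine ⟨0, by simp, ?_⟩
        intro j' hj2
        have : j' ≠ j := fun h => hj' (h ▸ hj2)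
        simp [this]
      have h2 := hft _ h1
      rw [hf] at h2
      simp at h2
      exact hj h2
    · rw [cov_fst, tlc_cov]
      have h2 := hft _ (mem_subG_self e t)
      rw [hf] at h2
      exact h2
  have hra := key a ha (fun x hx => hf2 (Submodule.mem_sup_left hx))
  have hrb := key b hb (fun x hx => hf2 (Submodule.mem_sup_right hx))
  have hrz := h' _ hra hrb
  have h1 := subG_le_subH hn hz hrz hx
  obtain ⟨_, h2⟩ := h1
  rw [cov_fst, tlc_cov, ← hf] at h2
  exact hf1 h2

theorem subH_inf_le (hn : 3 ≤ n) {e : ZMod n} {x y w : Vec n F}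
    (h : (Concept.ofAttribute Rel x : Lat n F) ⊓ Concept.ofAttribute Rel y ≤
      Concept.ofAttribute Rel w)
    (hv : ∀ φ : ZMod n → F, Full φ e → (∀ j, x.1 j ≠ 0 → InEdge φ j) →
      (∀ j, y.1 j ≠ 0 → InEdge φ j) → False) :
    subH e x ⊓ subH e y ≤ subH e w := by
  have h' : ∀ a, Rel a x → Rel a y → Rel a w := by
    intro a h1 h2
    have h3 : (Concept.ofObject Rel a : Lat n F) ≤ Concept.ofAttribute Rel w := by
      refine le_trans (le_inf ?_ ?_) h
      · exact Concept.ofObject_le_ofAttribute_iff.2 h1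
      · exact Concept.ofObject_le_ofAttribute_iff.2 h2
    exact Concept.ofObject_le_ofAttribute_iff.1 h3
  rintro v ⟨h1, h2⟩
  have hF : ¬ Full v.2 e := fun hF => hv v.2 hF h1.1 h2.1
  have hF' : ¬ Full (tl e v.2) e := by rwa [full_tl]
  have e1 : v = (v.1, tl e (tl e v.2)) := by rw [tl_tl]
  have r1 : Rel ((v.1, tl e v.2) : Vec n F) x := by
    rw [rel_iff_mem hn hF', tl_tl]
    exact h1
  have r2 : Rel ((v.1, tl e v.2) : Vec n F) y := by
    rw [rel_iff_mem hn hF', tl_tl]
    exact h2
  have r3 := h' _ r1 r2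
  rw [rel_iff_mem hn hF', tl_tl] at r3
  exact r3

theorem supp_le {z a b : Vec n F}
    (h : (Concept.ofObject Rel z : Lat n F) ≤ Concept.ofObject Rel a ⊔ Concept.ofObject Rel b)
    (l : ZMod n) (hl : z.2 l ≠ 0) : a.2 l ≠ 0 ∨ b.2 l ≠ 0 := by
  by_contra hcon
  push Not at hcon
  have key : ∀ t : Vec n F, Rel t ((0, Pi.single l 1) : Vec n F) ↔ t.2 l = 0 := by
    intro t
    rw [rel_zero_fst]
    simp only [single_dotProduct, one_mul]
    have := twist_ne_iff t.2 l
    tauto
  have h3 : (Concept.ofObject Rel z : Lat n F) ≤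
      Concept.ofAttribute Rel ((0, Pi.single l 1) : Vec n F) := by
    refine h.trans (sup_le ?_ ?_)
    · exact Concept.ofObject_le_ofAttribute_iff.2 ((key a).2 hcon.1)
    · exact Concept.ofObject_le_ofAttribute_iff.2 ((key b).2 hcon.2)
  exact hl ((key z).1 (Concept.ofObject_le_ofAttribute_iff.1 h3))

theorem supp_ge {x y w : Vec n F}
    (h : (Concept.ofAttribute Rel x : Lat n F) ⊓ Concept.ofAttribute Rel y ≤
      Concept.ofAttribute Rel w)
    (j : ZMod n) (hj : w.1 j ≠ 0) : x.1 j ≠ 0 ∨ y.1 j ≠ 0 := by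
  by_contra hcon
  push Not at hcon
  have key : ∀ t : Vec n F, Rel ((Pi.single j 1, 0) : Vec n F) t ↔ t.1 j = 0 := by
    intro t
    rw [rel_zero_iff]
    simp
  have h3 : (Concept.ofObject Rel ((Pi.single j 1, 0) : Vec n F) : Lat n F) ≤
      Concept.ofAttribute Rel w := by
    refine le_trans (le_inf ?_ ?_) h
    · exact Concept.ofObject_le_ofAttribute_iff.2 ((key x).2 hcon.1)
    · exact Concept.ofObject_le_ofAttribute_iff.2 ((key y).2 hcon.2)
  exact hj ((key w).1 (Concept.ofObject_le_ofAttribute_iff.1 h3))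

theorem full_eq (hn : 3 ≤ n) {φ : ZMod n → F} {e j : ZMod n} (hφ : Full φ e)
    (h : InEdge φ j) : e = j := by
  have h2n := two_ne (n := n) hn
  rcases h e hφ.1 with h1 | h1
  · exact h1
  · rcases h (e + 1) hφ.2.1 with h2 | h2
    · exact absurd (show (2 : ZMod n) = 0 by linear_combination h2 - h1) h2n
    · exact add_right_cancel h2

/-- The generic case: no failing configuration. -/
theorem generic (hn : 4 ≤ n) (m : ℕ) (hm : 2 ≤ m) (ζ ω : Vec n F) (α β ξ η : ℕ → Vec n F)
    (hζ : ζ.2 ≠ 0) (hω : ω.1 ≠ 0)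
    (hJ1 : ∀ i, 1 ≤ i → i ≤ m → (Concept.ofObject Rel ζ : Lat n F) ≤
      Concept.ofObject Rel (α i) ⊔ Concept.ofObject Rel (β i))
    (hJ2 : ∀ i, 1 ≤ i → i ≤ m → (Concept.ofObject Rel (α i) : Lat n F) ≤
      Concept.ofObject Rel ζ ⊔ Concept.ofObject Rel (β i))
    (hJ3 : ∀ i, 1 ≤ i → i ≤ m → (Concept.ofObject Rel (β i) : Lat n F) ≤
      Concept.ofObject Rel ζ ⊔ Concept.ofObject Rel (α i))
    (hM : ∀ i, 1 ≤ i → i < m → (Concept.ofAttribute Rel (ξ i) : Lat n F) ⊓
      Concept.ofAttribute Rel (η i) ≤ Concept.ofAttribute Rel ω)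
    (hMm : (Concept.ofAttribute Rel ω : Lat n F) ⊓
      Concept.ofAttribute Rel (η m) ≤ Concept.ofAttribute Rel (ξ m))
    (hI1 : ∀ i, 1 ≤ i → i < m → Rel (α i) (ξ i))
    (hI2 : ∀ i, 1 ≤ i → i < m → Rel (α (i + 1)) (ξ i))
    (hI3 : ∀ i, 1 ≤ i → i < m → Rel (β i) (η i))
    (hI4 : ∀ i, 1 ≤ i → i < m → Rel (β (i + 1)) (η i))
    (hI5 : Rel (α 1) (ξ m)) (hI6 : Rel (β 1) (η m)) (hI7 : Rel (β m) (η m)) :
    Rel (α m) (ξ m) := by
  have h1n := one_ne (n := n) (by omega)
  have h2n := two_ne (n := n) (by omega)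
  have h3n := three_ne (n := n) hn
  have hn3 : 3 ≤ n := by omega
  obtain ⟨j0, hj0⟩ := Function.ne_iff.1 hω
  have hj0' : ω.1 j0 ≠ 0 := hj0
  have hstar : ∀ i, 1 ≤ i → i ≤ m → InEdge (α i).2 j0 ∨ InEdge (β i).2 j0 := by
    intro i h1 h2
    by_cases him : i = m
    · subst him
      obtain ⟨k, rfl⟩ : ∃ k, i = k + 1 := ⟨i - 1, by omega⟩
      rcases supp_ge (hM k (by omega) (by omega)) j0 hj0' with h | h
      · exact Or.inl ((hI2 k (by omega) (by omega)).1 j0 h)
      · exact Or.inr ((hI4 k (by omega) (by omega)).1 j0 h)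
    · rcases supp_ge (hM i h1 (by omega)) j0 hj0' with h | h
      · exact Or.inl ((hI1 i h1 (by omega)).1 j0 h)
      · exact Or.inr ((hI3 i h1 (by omega)).1 j0 h)
  -- good edges
  have hgood : ∃ e : ZMod n, e ≠ j0 ∧ ¬ Full ζ.2 e ∧
      ∀ i, 1 ≤ i → i ≤ m → ¬ Full (α i).2 e ∧ ¬ Full (β i).2 e := by
    by_contra hcon
    push Not at hcon
    have hbad : ∀ e : ZMod n, e ≠ j0 → ∀ l, l ≠ j0 → l ≠ j0 + 1 →
        (ζ.2 l ≠ 0 ↔ (l = e ∨ l = e + 1)) := by
      intro e he l hl hl1
      by_cases hF : Full ζ.2 e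
      · constructor
        · intro h
          exact hF.2.2 l h
        · rintro (h | h)
          · rw [h]
            exact hF.1
          · rw [h]
            exact hF.2.1
      · obtain ⟨i, hi1, hi2, hi3⟩ := hcon e he hF
        have hnot : ∀ φ : ZMod n → F, Full φ e → ¬ InEdge φ j0 := by
          intro φ hφ h
          exact he (full_eq hn3 hφ h)
        have hfull : ∀ φ : ZMod n → F, Full φ e → (φ l ≠ 0 ↔ (l = e ∨ l = e + 1)) := by
          intro φ hφ
          constructor
          · intro h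
            exact hφ.2.2 l h
          · rintro (h | h)
            · rw [h]
              exact hφ.1
            · rw [h]
              exact hφ.2.1
        have s1 := supp_le (hJ1 i hi1 hi2) l
        have s2 := supp_le (hJ2 i hi1 hi2) l
        have s3 := supp_le (hJ3 i hi1 hi2) l
        by_cases hFa : Full (α i).2 e
        · have hb : InEdge (β i).2 j0 := (hstar i hi1 hi2).resolve_left (hnot _ hFa)
          have hb0 : (β i).2 l = 0 := by
            by_contra h
            rcases hb l h with h | h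
            · exact hl h
            · exact hl1 h
          rw [← hfull _ hFa]
          constructor
          · intro h
            rcases s1 h with h | h
            · exact h
            · exact absurd hb0 h
          · intro h
            rcases s2 h with h | h
            · exact h
            · exact absurd hb0 h
        · have hFb : Full (β i).2 e := hi3 hFa
          have ha : InEdge (α i).2 j0 := (hstar i hi1 hi2).resolve_right (hnot _ hFb)
          have ha0 : (α i).2 l = 0 := by
            by_contra h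
            rcases ha l h with h | h
            · exact hl h
            · exact hl1 h
          rw [← hfull _ hFb]
          constructor
          · intro h
            rcases s1 h with h | h
            · exact absurd ha0 h
            · exact h
          · intro h
            rcases s3 h with h | h
            · exact h
            · exact absurd ha0 h
    have b1 := hbad (j0 + 1) (fun h => h1n (by linear_combination h)) (j0 + 3)
      (fun h => h3n (by linear_combination h)) (fun h => h2n (by linear_combination h))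
    have b2 := hbad (j0 + 2) (fun h => h2n (by linear_combination h)) (j0 + 3)
      (fun h => h3n (by linear_combination h)) (fun h => h2n (by linear_combination h))
    rcases b1.1 (b2.2 (Or.inr (by ring))) with h | h
    · exact h2n (by linear_combination h)
    · exact h1n (by linear_combination h)
  obtain ⟨e, hej, hFζ, hF⟩ := hgood
  have key := linear_law m (by omega) (subG e ζ) (subH e ω) (fun i => subG e (α i))
    (fun i => subG e (β i)) ?_ ?_
  · have h1 : subG e (α m) ≤ subG e ζ ⊔ subG e (β m) :=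
      subG_le_sup hn3 (hF m (by omega) le_rfl).1 hFζ (hF m (by omega) le_rfl).2
        (hJ2 m (by omega) le_rfl)
    have h2 : subG e (α m) ≤ subH e (ξ m) := by
      have h3 : subG e (α m) ≤ subG e (α m) ⊓ (subG e ζ ⊔ subG e (β m)) := le_inf le_rfl h1
      refine h3.trans (key.trans (sup_le ?_ ?_))
      · exact subG_le_subH hn3 (hF 1 le_rfl (by omega)).1 hI5
      · have h4 : subG e (β 1) ⊔ subG e (β m) ≤ subH e (η m) :=
          sup_le (subG_le_subH hn3 (hF 1 le_rfl (by omega)).2 hI6)
            (subG_le_subH hn3 (hF m (by omega) le_rfl).2 hI7)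
        refine le_trans (inf_le_inf_left _ h4) (subH_inf_le hn3 hMm ?_)
        intro φ hφ hc _
        exact hej (full_eq hn3 hφ (hc j0 hj0'))
    rw [rel_iff_mem hn3 (hF m (by omega) le_rfl).1]
    exact h2 (mem_subG_self e (α m))
  · intro i h1 h2
    exact subG_le_sup hn3 hFζ (hF i h1 h2.le).1 (hF i h1 h2.le).2 (hJ1 i h1 h2.le)
  · intro i h1 h2
    have h3 : subG e (α i) ⊔ subG e (α (i + 1)) ≤ subH e (ξ i) :=
      sup_le (subG_le_subH hn3 (hF i h1 h2.le).1 (hI1 i h1 h2))
        (subG_le_subH hn3 (hF (i + 1) (by omega) (by omega)).1 (hI2 i h1 h2))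
    have h4 : subG e (β i) ⊔ subG e (β (i + 1)) ≤ subH e (η i) :=
      sup_le (subG_le_subH hn3 (hF i h1 h2.le).2 (hI3 i h1 h2))
        (subG_le_subH hn3 (hF (i + 1) (by omega) (by omega)).2 (hI4 i h1 h2))
    refine le_trans (inf_le_inf h3 h4) (subH_inf_le hn3 (hM i h1 h2) ?_)
    intro φ hφ hc1 hc2
    rcases supp_ge (hM i h1 h2) j0 hj0' with h | h
    · exact hej (full_eq hn3 hφ (hc1 j0 h))
    · exact hej (full_eq hn3 hφ (hc2 j0 h))

end Pool.Agent.Lib.MP_5acbe8_al
end

section

set_option autoImplicit false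
set_option linter.unusedVariables false
set_option linter.unusedSectionVars false

namespace Pool.Agent.Lib.MP_5acbe8_al

open Order

variable {n : ℕ} {F : Type} [NeZero n] [Field F]

theorem object_zero {ζ : Vec n F} (h : ζ.2 = 0) :
    ∀ x ∈ (Concept.ofObject Rel ζ : Lat n F).extent, x.2 = 0 := by
  intro x hx
  funext l
  by_contra hl
  have h1 : ((0, Pi.single l 1) : Vec n F) ∈ (Concept.ofObject Rel ζ : Lat n F).intent := by
    rw [mem_int]
    intro t ht
    have h2 : (Concept.ofObject Rel ζ : Lat n F) ≤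
        Concept.ofAttribute Rel ((0, Pi.single l 1) : Vec n F) := by
      rw [Concept.ofObject_le_ofAttribute_iff, rel_zero_fst, h, twist_zero]
      simp
    exact mem_ext.1 (h2 ht) _ (mem_ofAttribute.1 le_rfl)
  have h2 := mem_ext.1 hx _ h1
  rw [rel_zero_fst] at h2
  simp only [single_dotProduct, one_mul] at h2
  exact (twist_ne_iff x.2 l).2 hl h2

theorem attribute_zero {ω : Vec n F} (h : ω.1 = 0) :
    ∀ y ∈ (Concept.ofAttribute Rel ω : Lat n F).intent, y.1 = 0 := by
  intro y hy
  funext j
  have h1 : ((Pi.single j 1, 0) : Vec n F) ∈ (Concept.ofAttribute Rel ω : Lat n F).extent := by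
    have h2 : (Concept.ofObject Rel ((Pi.single j 1, 0) : Vec n F) : Lat n F) ≤
        Concept.ofAttribute Rel ω := by
      rw [Concept.ofObject_le_ofAttribute_iff, rel_zero_iff, h]
      simp
    exact mem_ofObject.1 h2
  have h2 := mem_ext.1 h1 _ hy
  rw [rel_zero_iff] at h2
  simpa using h2

/-- The higher Arguesian law of order `m < n` holds in the twisted lattice. -/
theorem law [Finite F] (hn : 4 ≤ n) (m : ℕ) (hm : 2 ≤ m) (hmn : m < n) (z w : Lat n F)
    (a b : ℕ → Lat n F)
    (hz : ∀ i, 1 ≤ i → i < m → z ≤ a i ⊔ b i)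
    (hw : ∀ i, 1 ≤ i → i < m → (a i ⊔ a (i + 1)) ⊓ (b i ⊔ b (i + 1)) ≤ w) :
    a m ⊓ (z ⊔ b m) ≤ a 1 ⊔ (w ⊓ (b 1 ⊔ b m)) := by
  have hn3 : 3 ≤ n := by omega
  have hmod : IsModularLattice (Lat n F) := modular hn3
  by_contra hcon
  obtain ⟨p, hp, hpL, hpR⟩ := exists_supIrred hcon
  obtain ⟨xm, hxm, hRx, hpx⟩ := exists_infIrred hpR
  have hpa : p ≤ a m := hpL.trans inf_le_left
  have hpb : p ≤ z ⊔ b m := hpL.trans inf_le_right
  obtain ⟨z', hz', bm, hbm, t1, t2, t3, irz, irb⟩ := min_pair hp hpb
  have hxa : a 1 ≤ xm := le_sup_left.trans hRx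
  have hxb : w ⊓ (b 1 ⊔ b m) ≤ xm := le_sup_right.trans hRx
  obtain ⟨w', hw', ym, hym, u1, u2, u3, irw, iry⟩ := max_pair hxm hxb
  obtain ⟨ζ, hζ⟩ := exists_object irz
  obtain ⟨ω, hω⟩ := exists_attribute irw
  have hζ0 : ζ.2 ≠ 0 := by
    intro h0
    have h1 := typeZero hn3 m hm hmn z' w a b (by rw [hζ]; exact object_zero h0)
      (fun i i1 i2 => hz'.trans (hz i i1 i2)) hw
    have h2 : p ≤ a m ⊓ (z' ⊔ b m) :=
      le_inf hpa (t1.trans (sup_le_sup le_rfl hbm))
    exact hpR (h2.trans h1)
  have hω0 : ω.1 ≠ 0 := by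
    intro h0
    have h1 := typeTop hn3 m hm hmn z w' a b (by rw [hω]; exact attribute_zero h0)
      hz (fun i i1 i2 => (hw i i1 i2).trans hw')
    have h2 : a 1 ⊔ (w' ⊓ (b 1 ⊔ b m)) ≤ xm :=
      sup_le hxa ((inf_le_inf le_rfl hym).trans u1)
    exact hpx ((hpL.trans h1).trans h2)
  have hzs : SupIrred z' := by
    rcases irz with h | h
    · exact h
    · exfalso
      have h1 : z' ≤ Concept.ofObject Rel (0 : Vec n F) :=
        h (mem_ofObject.2 (zero_mem_ext z'))
      have h2 : ζ ∈ z'.extent := by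
        rw [hζ]
        exact self_mem_ofObject ζ
      exact hζ0 (object_zero (n := n) (F := F) rfl ζ (h1 h2))
  have hws : InfIrred w' := by
    rcases irw with h | h
    · exact h
    · exfalso
      have h1 : Concept.ofAttribute Rel (0 : Vec n F) ≤ w' :=
        h (mem_ofAttribute.2 (zero_mem_int w'))
      have h2 : ω ∈ w'.intent := by
        rw [hω]
        exact mem_ofAttribute.1 le_rfl
      have h3 : ω ∈ (Concept.ofAttribute Rel (0 : Vec n F) : Lat n F).intent :=
        Concept.intent_subset_intent_iff.2 h1 h2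
      exact hω0 (attribute_zero (n := n) (F := F) rfl ω h3)
  -- choose the points
  have hexJ : ∀ i, ∃ x y : Vec n F, (1 ≤ i → i ≤ m →
      (Concept.ofObject Rel x : Lat n F) ≤ a i ∧ (Concept.ofObject Rel y : Lat n F) ≤ b i ∧
      (Concept.ofObject Rel ζ : Lat n F) ≤ Concept.ofObject Rel x ⊔ Concept.ofObject Rel y ∧
      (Concept.ofObject Rel x : Lat n F) ≤ Concept.ofObject Rel ζ ⊔ Concept.ofObject Rel y ∧
      (Concept.ofObject Rel y : Lat n F) ≤ Concept.ofObject Rel ζ ⊔ Concept.ofObject Rel x) ∧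
      (i = m → (Concept.ofObject Rel x : Lat n F) = p) := by
    intro i
    by_cases him : i = m
    · subst him
      obtain ⟨x, hx⟩ := exists_object (Or.inl hp : SupIrred p ∨ IsMin p)
      obtain ⟨y, hy⟩ := exists_object irb
      refine ⟨x, y, fun _ _ => ?_, fun _ => hx.symm⟩
      rw [← hx, ← hy, ← hζ]
      exact ⟨hpa, hbm, t2, t1, by rw [sup_comm]; exact t3⟩
    · by_cases hi : 1 ≤ i ∧ i < m
      · obtain ⟨a', ha', b', hb', s1, s2, s3, ir1, ir2⟩ :=
          min_pair hzs (hz'.trans (hz i hi.1 hi.2))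
        obtain ⟨x, hx⟩ := exists_object ir1
        obtain ⟨y, hy⟩ := exists_object ir2
        refine ⟨x, y, fun _ _ => ?_, fun h => absurd h him⟩
        rw [← hx, ← hy, ← hζ]
        exact ⟨ha', hb', s1, s2, s3⟩
      · exact ⟨0, 0, fun h1 h2 => absurd ⟨h1, lt_of_le_of_ne h2 him⟩ hi, fun h => absurd h him⟩
  choose α β hαβ using hexJ
  have hexM : ∀ i, ∃ x y : Vec n F, (1 ≤ i → i < m →
      a i ⊔ a (i + 1) ≤ (Concept.ofAttribute Rel x : Lat n F) ∧
      b i ⊔ b (i + 1) ≤ (Concept.ofAttribute Rel y : Lat n F) ∧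
      (Concept.ofAttribute Rel x : Lat n F) ⊓ Concept.ofAttribute Rel y ≤
        Concept.ofAttribute Rel ω) ∧
      (i = m → (Concept.ofAttribute Rel x : Lat n F) = xm ∧
        (Concept.ofAttribute Rel y : Lat n F) = ym) := by
    intro i
    by_cases him : i = m
    · obtain ⟨x, hx⟩ := exists_attribute (Or.inl hxm : InfIrred xm ∨ IsMax xm)
      obtain ⟨y, hy⟩ := exists_attribute iry
      exact ⟨x, y, fun _ h => absurd him (by omega), fun _ => ⟨hx.symm, hy.symm⟩⟩
    · by_cases hi : 1 ≤ i ∧ i < m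
      · obtain ⟨x', hx', y', hy', s1, s2, s3, ir1, ir2⟩ :=
          max_pair hws ((hw i hi.1 hi.2).trans hw')
        obtain ⟨x, hx⟩ := exists_attribute ir1
        obtain ⟨y, hy⟩ := exists_attribute ir2
        refine ⟨x, y, fun _ _ => ?_, fun h => absurd h him⟩
        rw [← hx, ← hy, ← hω]
        exact ⟨hx', hy', s1⟩
      · exact ⟨0, 0, fun h1 h2 => absurd ⟨h1, h2⟩ hi, fun h => absurd h him⟩
  choose ξ η hξη using hexM
  have hα : ∀ i, 1 ≤ i → i ≤ m → (Concept.ofObject Rel (α i) : Lat n F) ≤ a i :=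
    fun i h1 h2 => ((hαβ i).1 h1 h2).1
  have hβ : ∀ i, 1 ≤ i → i ≤ m → (Concept.ofObject Rel (β i) : Lat n F) ≤ b i :=
    fun i h1 h2 => ((hαβ i).1 h1 h2).2.1
  have hfin := generic hn m hm ζ ω α β ξ η hζ0 hω0
    (fun i h1 h2 => ((hαβ i).1 h1 h2).2.2.1)
    (fun i h1 h2 => ((hαβ i).1 h1 h2).2.2.2.1)
    (fun i h1 h2 => ((hαβ i).1 h1 h2).2.2.2.2)
    (fun i h1 h2 => ((hξη i).1 h1 h2).2.2)
    (by
      rw [((hξη m).2 rfl).1, ((hξη m).2 rfl).2, ← hω]
      exact u1)
    (fun i h1 h2 => Concept.ofObject_le_ofAttribute_iff.1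
      ((hα i h1 h2.le).trans (le_sup_left.trans ((hξη i).1 h1 h2).1)))
    (fun i h1 h2 => Concept.ofObject_le_ofAttribute_iff.1
      ((hα (i + 1) (by omega) (by omega)).trans (le_sup_right.trans ((hξη i).1 h1 h2).1)))
    (fun i h1 h2 => Concept.ofObject_le_ofAttribute_iff.1
      ((hβ i h1 h2.le).trans (le_sup_left.trans ((hξη i).1 h1 h2).2.1)))
    (fun i h1 h2 => Concept.ofObject_le_ofAttribute_iff.1
      ((hβ (i + 1) (by omega) (by omega)).trans (le_sup_right.trans ((hξη i).1 h1 h2).2.1)))
    (Concept.ofObject_le_ofAttribute_iff.1 (by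
      rw [((hξη m).2 rfl).1]
      exact (hα 1 le_rfl (by omega)).trans hxa))
    (Concept.ofObject_le_ofAttribute_iff.1 (by
      rw [((hξη m).2 rfl).2]
      exact (hβ 1 le_rfl (by omega)).trans (le_sup_left.trans hym)))
    (Concept.ofObject_le_ofAttribute_iff.1 (by
      rw [((hξη m).2 rfl).2]
      exact (hβ m (by omega) le_rfl).trans (le_sup_right.trans hym)))
  have h1 := Concept.ofObject_le_ofAttribute_iff.2 hfin
  rw [((hξη m).2 rfl).1, (hαβ m).2 rfl] at h1
  exact hpx h1

/-! ### Failure of the law of order `n` -/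

/-- the vector `(0, f_i)` -/
def va (F : Type) [Field F] (i : ZMod n) : Vec n F := (0, Pi.single i 1)

/-- the vector `(1, f_i)` -/
def vb (F : Type) [Field F] (i : ZMod n) : Vec n F := (fun _ => 1, Pi.single i 1)

/-- the vector `(1, 0)` -/
def vz (n : ℕ) (F : Type) [Field F] : Vec n F := (fun _ => 1, 0)

theorem inEdge_single (i : ZMod n) : InEdge (Pi.single i (1 : F)) i := by
  intro l hl
  left
  by_contra h
  exact hl (by simp [h])

theorem inEdge_single' (i j : ZMod n) (h : i = j ∨ i = j + 1) :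
    InEdge (Pi.single i (1 : F)) j := by
  intro l hl
  have : l = i := by
    by_contra h
    exact hl (by simp [h])
  rw [this]
  exact h

theorem law_fails (h2 : (2 : F) ≠ 0) (hn : 3 ≤ n) (a b : ℕ → Lat n F)
    (ha : ∀ i : ℕ, a i = Concept.ofObject Rel (va F (i : ZMod n)))
    (hb : ∀ i : ℕ, b i = Concept.ofObject Rel (vb F (i : ZMod n)))
    (z w : Lat n F) (hz : Concept.ofObject Rel (vz n F) ≤ z)
    (hw : w ≤ Concept.ofAttribute Rel ((0, fun _ => 1) : Vec n F)) :
    ¬ (a n ⊓ (z ⊔ b n) ≤ a 1 ⊔ (w ⊓ (b 1 ⊔ b n))) := by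
  have h1n := one_ne (n := n) hn
  have h2n := two_ne (n := n) hn
  intro hcon
  -- the vector of `a n`
  have hn0 : ((n : ℕ) : ZMod n) = 0 := ZMod.natCast_self n
  have ha0 : va F (0 : ZMod n) ∈ (a n).extent := by
    rw [ha, hn0]
    exact self_mem_ofObject _
  have hb0 : vb F (0 : ZMod n) ∈ (b n).extent := by
    rw [hb, hn0]
    exact self_mem_ofObject _
  have hL : va F (0 : ZMod n) ∈ (a n ⊓ (z ⊔ b n)).extent := by
    refine ⟨ha0, ?_⟩
    have e1 : va F (0 : ZMod n) = vb F 0 - vz n F := by
      unfold va vb vz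
      ext <;> simp
    rw [e1]
    apply ext_sub hn _ (inEdge_single (0 : ZMod n)) (inEdge_zero 0)
    · exact (le_sup_right : b n ≤ z ⊔ b n) hb0
    · exact (le_sup_left : z ≤ z ⊔ b n) (hz (self_mem_ofObject _))
  have hR := hcon hL
  -- the separating covector
  let x0 : Vec n F := (Pi.single 0 1, Pi.single 0 (-2))
  let y0 : Vec n F := (Pi.single 0 1, Pi.single 0 (-1) + Pi.single 1 (-1))
  have hx0 : a 1 ⊔ (w ⊓ (b 1 ⊔ b n)) ≤ Concept.ofAttribute Rel x0 := by
    apply sup_le
    · rw [ha, Nat.cast_one, Concept.ofObject_le_ofAttribute_iff]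
      refine ⟨?_, ?_, ?_⟩
      · intro j hj
        have : j = 0 := by
          by_contra h
          exact hj (by simp [x0, h])
        rw [this]
        exact inEdge_single' 1 0 (Or.inr (by simp))
      · intro h
        have := congrFun h 0
        simp [x0] at this
      · intro _
        simp [x0, va, h1n]
    · have hby : b 1 ⊔ b n ≤ Concept.ofAttribute Rel y0 := by
        apply sup_le
        · rw [hb, Nat.cast_one, Concept.ofObject_le_ofAttribute_iff]
          refine ⟨?_, ?_, ?_⟩
          · intro j hj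
            have : j = 0 := by
              by_contra h
              exact hj (by simp [y0, h])
            rw [this]
            exact inEdge_single' 1 0 (Or.inr (by simp))
          · intro h
            have := congrFun h 0
            simp [y0] at this
          · intro _
            simp [y0, vb, h1n]
        · rw [hb, hn0, Concept.ofObject_le_ofAttribute_iff]
          refine ⟨?_, ?_, ?_⟩
          · intro j hj
            have : j = 0 := by
              by_contra h
              exact hj (by simp [y0, h])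
            rw [this]
            exact inEdge_single' 0 0 (Or.inl rfl)
          · intro h
            have := congrFun h 0
            simp [y0] at this
          · intro _
            simp [y0, vb, h1n.symm]
      intro v hv
      obtain ⟨hv1, hv2⟩ := hv
      have r1 : Rel v ((0, fun _ => 1) : Vec n F) :=
        mem_ext.1 (hw hv1) _ (mem_ofAttribute.1 le_rfl)
      have r2 : Rel v y0 := mem_ext.1 (hby hv2) _ (mem_ofAttribute.1 le_rfl)
      rw [rel_zero_fst] at r1
      have hE : InEdge v.2 0 := r2.1 0 (by simp [y0])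
      have r3 := r2.2.2 (by
        intro h
        have := congrFun h 0
        simp [y0] at this)
      have hsum : (fun _ => (1 : F)) ⬝ᵥ twist v.2 = - v.2 0 + v.2 1 := by
        unfold dotProduct
        rw [show twist v.2 = neg0 v.2 by simp [twist, hE]]
        have hsub : (({0, 1} : Finset (ZMod n)) : Finset (ZMod n)) ⊆ Finset.univ :=
          Finset.subset_univ _
        rw [← Finset.sum_subset hsub]
        · rw [Finset.sum_pair h1n.symm]
          simp [neg0, h1n]
        · intro l _ hl
          have : v.2 l = 0 := by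
            by_contra h
            apply hl
            rcases hE l h with h' | h'
            · simp [h']
            · simp [h']
          by_cases h0 : l = 0
          · simp [h0] at hl ⊢
          · simp [neg0, h0, this]
      rw [hsum] at r1
      simp only [y0, single_dotProduct, one_mul, add_dotProduct] at r3
      have hx : Rel v x0 := by
        refine ⟨?_, ?_, ?_⟩
        · intro j hj
          have : j = 0 := by
            by_contra h
            exact hj (by simp [x0, h])
          rw [this]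
          exact hE
        · intro h
          have := congrFun h 0
          simp [x0] at this
        · intro _
          simp only [x0, single_dotProduct, one_mul]
          linear_combination r3 + r1
      rw [mem_ext]
      intro y hy
      have : (Concept.ofObject Rel v : Lat n F) ≤ Concept.ofAttribute Rel x0 :=
        Concept.ofObject_le_ofAttribute_iff.2 hx
      exact mem_ext.1 (mem_ofObject.1 this) y hy
  have hfin := mem_ext.1 (hx0 hR) _ (mem_ofAttribute.1 le_rfl)
  have := hfin.2.2 (by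
    intro h
    have := congrFun h 0
    simp [x0] at this)
  simp [x0, va] at this
  exact h2 this

end Pool.Agent.Lib.MP_5acbe8_al
end

section

set_option autoImplicit false
set_option linter.unusedVariables false
set_option linter.unusedSectionVars false

namespace Pool.Agent.Lib.MP_5acbe8_al

open Order

/-- The `n`-th order Arguesian law, for families indexed by the natural numbers
(only the indices `1, ..., n` occur). -/
def ArgLaw (α : Type) [Lattice α] (n : ℕ) : Prop :=
  ∀ (a b : ℕ → α) (h : (Finset.Icc 1 (n - 1)).Nonempty),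
    a n ⊓ ((Finset.Icc 1 (n - 1)).inf' h (fun i => a i ⊔ b i) ⊔ b n) ≤
      a 1 ⊔ ((Finset.Icc 1 (n - 1)).sup' h
          (fun i => (a i ⊔ a (i + 1)) ⊓ (b i ⊔ b (i + 1))) ⊓ (b 1 ⊔ b n))

/-- `D_2` holds in modular lattices. -/
theorem argLaw_two (α : Type) [Lattice α] [IsModularLattice α] : ArgLaw α 2 := by
  intro a b h
  have h1 : (Finset.Icc 1 (2 - 1)).inf' h (fun i => a i ⊔ b i) ≤ a 1 ⊔ b 1 :=
    Finset.inf'_le (fun i => a i ⊔ b i) (by simp)
  have h2 : (a 1 ⊔ a 2) ⊓ (b 1 ⊔ b 2) ≤ (Finset.Icc 1 (2 - 1)).sup' h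
      (fun i => (a i ⊔ a (i + 1)) ⊓ (b i ⊔ b (i + 1))) :=
    Finset.le_sup' (fun i => (a i ⊔ a (i + 1)) ⊓ (b i ⊔ b (i + 1)))
      (show 1 ∈ Finset.Icc 1 (2 - 1) by simp)
  have h3 : a 2 ⊓ ((Finset.Icc 1 (2 - 1)).inf' h (fun i => a i ⊔ b i) ⊔ b 2) ≤
      (a 1 ⊔ (b 1 ⊔ b 2)) ⊓ (a 1 ⊔ a 2) := by
    refine le_inf ?_ (inf_le_left.trans le_sup_right)
    refine inf_le_right.trans ?_
    rw [← sup_assoc]
    exact sup_le_sup h1 le_rfl
  refine h3.trans ?_
  rw [sup_inf_assoc_of_le (b 1 ⊔ b 2) (le_sup_left : a 1 ≤ a 1 ⊔ a 2)]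
  refine sup_le_sup le_rfl (le_inf ?_ inf_le_left)
  refine le_trans ?_ h2
  exact le_inf inf_le_right inf_le_left

/-- `D_m` holds in the twisted lattice over the `n`-gon, for `2 ≤ m < n`, `4 ≤ n`. -/
theorem argLaw_lat {n : ℕ} {F : Type} [NeZero n] [Field F] [Finite F] (hn : 4 ≤ n) (m : ℕ)
    (hm : 2 ≤ m) (hmn : m < n) : ArgLaw (Lat n F) m := by
  intro a b h
  apply law hn m hm hmn
  · intro i h1 h2
    exact Finset.inf'_le (fun i => a i ⊔ b i) (Finset.mem_Icc.2 ⟨h1, by omega⟩)
  · intro i h1 h2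
    exact Finset.le_sup' (fun i => (a i ⊔ a (i + 1)) ⊓ (b i ⊔ b (i + 1)))
      (Finset.mem_Icc.2 ⟨h1, by omega⟩)

theorem cast_ne_zero {n : ℕ} {i : ℕ} (h1 : 1 ≤ i) (h2 : i < n) : (i : ZMod n) ≠ 0 := by
  intro h
  have := (ZMod.natCast_eq_zero_iff i n).1 h
  exact absurd (Nat.le_of_dvd (by omega) this) (by omega)

/-- `D_n` fails in the twisted lattice over the `n`-gon. -/
theorem not_argLaw_lat {n : ℕ} {F : Type} [NeZero n] [Field F] (h2 : (2 : F) ≠ 0)
    (hn : 3 ≤ n) : ¬ ArgLaw (Lat n F) n := by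
  intro hcon
  have h1n := one_ne (n := n) hn
  have h2n := two_ne (n := n) hn
  have hne : (Finset.Icc 1 (n - 1)).Nonempty := ⟨1, Finset.mem_Icc.2 ⟨le_rfl, by omega⟩⟩
  let a : ℕ → Lat n F := fun i => Concept.ofObject Rel (va F (i : ZMod n))
  let b : ℕ → Lat n F := fun i => Concept.ofObject Rel (vb F (i : ZMod n))
  refine law_fails h2 hn a b (fun i => rfl) (fun i => rfl) _ _ ?_ ?_ (hcon a b hne)
  · apply Finset.le_inf'
    intro i hi
    rw [mem_ofObject]
    have e1 : vz n F = vb F (i : ZMod n) - va F (i : ZMod n) := by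
      unfold va vb vz
      ext <;> simp
    rw [e1]
    apply ext_sub hn _ (inEdge_single (i : ZMod n)) (inEdge_single (i : ZMod n))
    · exact (le_sup_right : b i ≤ a i ⊔ b i) (self_mem_ofObject _)
    · exact (le_sup_left : a i ≤ a i ⊔ b i) (self_mem_ofObject _)
  · apply Finset.sup'_le
    intro i hi
    rw [Finset.mem_Icc] at hi
    have hi0 : (i : ZMod n) ≠ 0 := cast_ne_zero hi.1 (by omega)
    generalize hj : (i : ZMod n) = j at hi0
    have hi1 : ((i + 1 : ℕ) : ZMod n) = j + 1 := by
      rw [← hj]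
      push_cast
      rfl
    have hjs : j ≠ j + 1 := by
      intro h
      apply h1n
      have : j + 0 = j + 1 := by rw [add_zero]; exact h
      exact (add_left_cancel this).symm
    let x0 : Vec n F := (Pi.single j 1, 0)
    let y0 : Vec n F := (Pi.single j 1, Pi.single j (-1) + Pi.single (j + 1) (-1))
    have hx0 : ∀ k : ℕ, ((k : ZMod n) = j ∨ (k : ZMod n) = j + 1) →
        a k ≤ Concept.ofAttribute Rel x0 := by
      intro k hk
      rw [Concept.ofObject_le_ofAttribute_iff]
      refine ⟨?_, ?_, ?_⟩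
      · intro l hl
        have : l = j := by
          by_contra h
          exact hl (by simp [x0, h])
        rw [this]
        exact inEdge_single' _ j hk
      · intro h
        have := congrFun h j
        simp [x0] at this
      · intro _
        simp [x0, va]
    have hy0 : ∀ k : ℕ, ((k : ZMod n) = j ∨ (k : ZMod n) = j + 1) →
        b k ≤ Concept.ofAttribute Rel y0 := by
      intro k hk
      rw [Concept.ofObject_le_ofAttribute_iff]
      refine ⟨?_, ?_, ?_⟩
      · intro l hl
        have : l = j := by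
          by_contra h
          exact hl (by simp [y0, h])
        rw [this]
        exact inEdge_single' _ j hk
      · intro h
        have := congrFun h j
        simp [y0] at this
      · intro _
        rcases hk with hk | hk
        · simp [y0, vb, hk, hjs]
        · simp [y0, vb, hk, hjs.symm]
    intro v hv
    obtain ⟨hv1, hv2⟩ := hv
    have r1 : Rel v x0 := by
      refine mem_ext.1 (?_ : v ∈ (Concept.ofAttribute Rel x0 : Lat n F).extent) _
        (mem_ofAttribute.1 le_rfl)
      exact (sup_le (hx0 i (Or.inl hj)) (hx0 (i + 1) (Or.inr hi1))) hv1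
    have r2 : Rel v y0 := by
      refine mem_ext.1 (?_ : v ∈ (Concept.ofAttribute Rel y0 : Lat n F).extent) _
        (mem_ofAttribute.1 le_rfl)
      exact (sup_le (hy0 i (Or.inl hj)) (hy0 (i + 1) (Or.inr hi1))) hv2
    have hE : InEdge v.2 j := r1.1 j (by simp [x0])
    have r3 := r1.2.2 (by
      intro h
      have := congrFun h j
      simp [x0] at this)
    have r4 := r2.2.2 (by
      intro h
      have := congrFun h j
      simp [y0] at this)
    simp only [x0, y0, single_dotProduct, one_mul, add_dotProduct, zero_dotProduct,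
      add_zero] at r3 r4
    have r5 : v.2 j + v.2 (j + 1) = 0 := by linear_combination r3 - r4
    have hv : Rel v ((0, fun _ => 1) : Vec n F) := by
      rw [rel_zero_fst]
      by_cases hE0 : InEdge v.2 0
      · have hz : v.2 = 0 := by
          by_contra hne0
          have hvj : v.2 j ≠ 0 := by
            intro h
            apply hne0
            funext l
            by_contra hl
            rcases hE l hl with h' | h'
            · exact hl (by rw [h', h]; rfl)
            · rw [h, zero_add] at r5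
              exact hl (by rw [h', r5]; rfl)
          have hvj1 : v.2 (j + 1) ≠ 0 := by
            intro h
            rw [h, add_zero] at r5
            exact hvj r5
          have h5 : j = 1 := by
            rcases hE0 j hvj with h | h
            · exact absurd h hi0
            · rw [h, zero_add]
          rcases hE0 (j + 1) hvj1 with h | h
          · rw [h5] at h
            apply h2n
            rw [← h]
            norm_num
          · rw [h5, zero_add] at h
            apply h1n
            have : (1 : ZMod n) + 1 = 1 + 0 := by rw [h, add_zero]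
            exact add_left_cancel this
        rw [hz, twist_zero]
        simp
      · rw [show twist v.2 = v.2 by simp [twist, hE0]]
        unfold dotProduct
        rw [← Finset.sum_subset (Finset.subset_univ ({j, j + 1} : Finset (ZMod n)))]
        · rw [Finset.sum_pair hjs]
          simpa using r5
        · intro l _ hl
          have : v.2 l = 0 := by
            by_contra h
            apply hl
            rcases hE l h with h' | h'
            · simp [h']
            · simp [h']
          simp [this]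
    rw [mem_ext]
    intro y hy
    have : (Concept.ofObject Rel v : Lat n F) ≤ Concept.ofAttribute Rel ((0, fun _ => 1)) :=
      Concept.ofObject_le_ofAttribute_iff.2 hv
    exact mem_ext.1 (mem_ofObject.1 this) y hy

/-! ### The pentagon -/

/-- the order relation of the poset `{0 < 1} ⊔ {2}` -/
def PentRel (x y : Fin 3) : Prop := x = y ∨ (x = 0 ∧ y = 1)

/-- the pentagon -/
abbrev Pent : Type := Concept (Fin 3) (Fin 3) PentRel

theorem not_argLaw_pent : ¬ ArgLaw Pent 2 := by
  intro hcon
  let a : ℕ → Pent := fun i => if i = 1 then Concept.ofObject PentRel 0 else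
    Concept.ofObject PentRel 1
  let b : ℕ → Pent := fun _ => Concept.ofObject PentRel 2
  have hne : (Finset.Icc 1 (2 - 1)).Nonempty := ⟨1, by simp⟩
  have h := hcon a b hne
  have h1 : (Concept.ofObject PentRel 1 : Pent) ≤
      a 2 ⊓ ((Finset.Icc 1 (2 - 1)).inf' hne (fun i => a i ⊔ b i) ⊔ b 2) := by
    refine le_inf (by simp [a]) (le_trans ?_ le_sup_left)
    apply Finset.le_inf'
    intro i hi
    have hi1 : i = 1 := by simpa using hi
    subst hi1
    have h0 : ∀ m : Fin 3, m ∉ (a 1 ⊔ b 1).intent := by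
      intro m hm
      have e0 : (Concept.ofObject PentRel 0 : Pent) ≤ Concept.ofAttribute PentRel m := by
        have : (Concept.ofAttribute PentRel m : Pent) ≥ a 1 ⊔ b 1 := by simpa using hm
        exact le_trans le_sup_left this
      have e1 : (Concept.ofObject PentRel 2 : Pent) ≤ Concept.ofAttribute PentRel m := by
        have : (Concept.ofAttribute PentRel m : Pent) ≥ a 1 ⊔ b 1 := by simpa using hm
        exact le_trans le_sup_right this
      rw [Concept.ofObject_le_ofAttribute_iff] at e0 e1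
      fin_cases m <;> simp_all [PentRel]
    have h3 : (a 1 ⊔ b 1).intent = ∅ := Set.eq_empty_iff_forall_notMem.2 h0
    rw [← Concept.intent_subset_intent_iff, h3]
    exact Set.empty_subset _
  have h2 : a 1 ⊔ ((Finset.Icc 1 (2 - 1)).sup' hne
      (fun i => (a i ⊔ a (i + 1)) ⊓ (b i ⊔ b (i + 1))) ⊓ (b 1 ⊔ b 2)) ≤
      (Concept.ofAttribute PentRel 0 : Pent) := by
    apply sup_le
    · simp only [a, if_true]
      rw [Concept.ofObject_le_ofAttribute_iff]
      simp [PentRel]
    · refine inf_le_left.trans ?_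
      apply Finset.sup'_le
      intro i hi
      have hi1 : i = 1 := by simpa using hi
      subst hi1
      have e0 : a 1 ⊔ a (1 + 1) ≤ (Concept.ofAttribute PentRel 1 : Pent) := by
        apply sup_le
        · simp only [a, if_true]
          rw [Concept.ofObject_le_ofAttribute_iff]
          simp [PentRel]
        · simp only [a]
          rw [if_neg (by norm_num), Concept.ofObject_le_ofAttribute_iff]
          simp [PentRel]
      have e1 : b 1 ⊔ b (1 + 1) ≤ (Concept.ofAttribute PentRel 2 : Pent) := by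
        apply sup_le <;>
        · simp only [b]
          rw [Concept.ofObject_le_ofAttribute_iff]
          simp [PentRel]
      refine (inf_le_inf e0 e1).trans ?_
      intro g hg
      exfalso
      obtain ⟨g1, g2⟩ := hg
      have f1 : PentRel g 1 := by
        have : (Concept.ofObject PentRel g : Pent) ≤ Concept.ofAttribute PentRel 1 := by
          simpa using g1
        rwa [Concept.ofObject_le_ofAttribute_iff] at this
      have f2 : PentRel g 2 := by
        have : (Concept.ofObject PentRel g : Pent) ≤ Concept.ofAttribute PentRel 2 := by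
          simpa using g2
        rwa [Concept.ofObject_le_ofAttribute_iff] at this
      unfold PentRel at f1 f2
      rcases f2 with f2 | ⟨_, f2⟩
      · subst f2
        rcases f1 with f1 | ⟨f1, _⟩
        · exact absurd f1 (by decide)
        · exact absurd f1 (by decide)
      · exact absurd f2 (by decide)
  have h4 := (h1.trans h).trans h2
  rw [Concept.ofObject_le_ofAttribute_iff] at h4
  unfold PentRel at h4
  rcases h4 with h4 | ⟨h4, _⟩ <;> exact absurd h4 (by decide)

instance : Finite Pent :=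
  Finite.of_injective (fun X : Pent => X.extent) Concept.extent_injective

theorem argLaw_one (α : Type) [Lattice α] : ArgLaw α 1 := by
  intro a b h
  exact absurd h (by simp)

/-- The laws are strictly increasing, within finite lattices. -/
theorem strict (n : ℕ) (hn : 1 ≤ n) :
    ∃ (α : Type) (inst : Lattice α), Finite α ∧ ArgLaw α n ∧ ¬ ArgLaw α (n + 1) := by
  have h2 : (2 : ZMod 3) ≠ 0 := by decide
  have : Fact (Nat.Prime 3) := ⟨Nat.prime_three⟩
  rcases Nat.lt_or_ge n 2 with h | h
  · have : n = 1 := by omega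
    subst this
    exact ⟨Pent, inferInstance, inferInstance, argLaw_one _, not_argLaw_pent⟩
  · have : NeZero (n + 1) := ⟨by omega⟩
    refine ⟨Lat (n + 1) (ZMod 3), inferInstance, inferInstance, ?_,
      not_argLaw_lat h2 (by omega)⟩
    rcases Nat.lt_or_ge n 3 with h' | h'
    · have : n = 2 := by omega
      subst this
      have : IsModularLattice (Lat (2 + 1) (ZMod 3)) := modular (by norm_num)
      exact argLaw_two _
    · exact argLaw_lat (by omega) n h (by omega)

end Pool.Agent.Lib.MP_5acbe8_al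
end
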